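import Pool.Agent.Helper92.FR.Real

/-!
# Few rows in a box: goals, part A (real analysis and probability)

Notation in the proofs: `n = N + d` is the number of the columns, `a_j = aa C S lam j`,
`r_j = 1 / (1 + |a_j|)`, `W_j = col C S j`, `g = gg C S e lam`. All goals are independent: any goal
may assume any other goal as a hypothesis.
-/

namespace Pool.Agent.Helper92.FR

open MeasureTheory

noncomputable section

/-! ### The truncated exponential law -/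

/-- TR0. Basic facts. Proof: `MM a` is the integral of a positive continuous function; the density
is continuous and its integral over `[0,1]` is one; `integral_withDensity_eq_integral_smul` (or
`integral_withDensity_eq_integral_toReal_smul`). -/
def Tr0Stmt : Prop := ∀ a : ℝ, 0 < MM a ∧ IsProbabilityMeasure (tl a) ∧
  (∀ f : ℝ → ℝ, Continuous f →
    ∫ x, f x ∂(tl a) = (∫ x in (0 : ℝ)..1, f x * Real.exp (a * x)) / MM a) ∧
  (∀ f : ℝ → ℂ, Continuous f →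
    ∫ x, f x ∂(tl a) = (∫ x in (0 : ℝ)..1, f x * (Real.exp (a * x) : ℂ)) / (MM a : ℂ)) ∧
  (tl a) (Set.Icc (0 : ℝ) 1)ᶜ = 0 ∧ 0 ≤ mm a ∧ mm a ≤ 1

/-- TRC. `GG` is convex, with derivative `mm`. Proof (may assume TR0): with `δ = b - a`,
`MM b / MM a = ∫ e^(δ x) d(tl a)`, and `e^(δ x) ≥ e^(δ m) (1 + δ (x - m))`, `m = mm a`. -/
def TrcStmt : Prop := ∀ a b : ℝ, GG a + mm a * (b - a) ≤ GG b

/-- TRU. Upper bound for `GG`. Proof. `GG` is smooth, `GG' = mm` and `GG'' = Var (tl a)`. The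
variance is at most `1/4` (the law lives on `[0,1]`), and at most `1/a^2` for `a ≠ 0`, since
`MM a = (e^a - 1)/a`, so that `GG'(a) = e^a/(e^a - 1) - 1/a`,
`GG''(a) = 1/a^2 - e^a/(e^a - 1)^2 < 1/a^2`. Hence `GG''(a) ≤ (9/4)/(1+|a|)^2` (for `|a| ≤ 2` use
`1/4`, for `|a| ≥ 2` use `1/a^2`). For `|s| ≤ |δ| ≤ (1+|a|)/2` one has `1 + |a+s| ≥ (1+|a|)/2`, so
`GG''(a+s) ≤ 9/(1+|a|)^2`; Taylor's formula. -/
def TruStmt : Prop := ∀ a δ : ℝ, |δ| ≤ (1 + |a|) / 2 →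
  GG (a + δ) ≤ GG a + δ * mm a + 9 / 2 * δ ^ 2 / (1 + |a|) ^ 2

/-- TRD. The density is at most `1 + |a|`. Proof: `x ↦ 1 - x` changes the sign of `a`, so let
`a ≥ 0`. Then `e^(ax)/MM a ≤ e^a / MM a`, and `MM a = e^a ∫_0^1 e^(-au) du` with
`(1 + a) ∫_0^1 e^(-au) du ≥ 1`: clear for `a = 0`; for `a > 0` it says
`(1+a)(1-e^(-a)) ≥ a`, i.e. `1 ≥ (1+a) e^(-a)`. -/
def TrdStmt : Prop := ∀ a x : ℝ, 0 ≤ x → x ≤ 1 → Real.exp (a * x) / MM a ≤ 1 + |a|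

/-- TRV. Lower bound for the variance. Proof (may assume TR0, TRD): the density is at most
`b = 1 + |a|`, so the probability of `|x - m| ≤ t` is at most `2 t b = 1/2` for `t = 1/(4b)`; so the
variance is at least `t^2/2 = 1/(32 b^2)`. -/
def TrvStmt : Prop := ∀ a : ℝ, 1 / (32 * (1 + |a|) ^ 2) ≤ ∫ x, (x - mm a) ^ 2 ∂(tl a)

/-- TRG. Growth. Proof: `MM a e^(-ac) = ∫_0^1 e^(a(x-c)) dx` is at least the integral over the
interval of length `σ/2` in `[c-σ, c+σ]` on which `a (x-c) ≥ |a| σ/2`. -/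
def TrgStmt : Prop := ∀ a c σ : ℝ, 0 < σ → 0 ≤ c - σ → c + σ ≤ 1 →
  |a| * σ / 2 + Real.log (σ / 2) ≤ GG a - a * c

/-- TRQ. Reflection and elementary bounds. Proof: substitution `x ↦ 1 - x`;
`MM (-b) = (1 - e^(-b))/b`, `mm (-b) = 1/b - 1/(e^b - 1) ≤ min (1/2) (1/b)` for `b > 0`
(`mm (-b) ≤ 1/2` since the density is decreasing). -/
def TrqStmt : Prop := (∀ a, MM a = Real.exp (max a 0) * MM (-|a|)) ∧ (∀ a, mm a = 1 - mm (-a)) ∧
  ∀ b : ℝ, 0 ≤ b → 1 / (1 + b) ≤ MM (-b) ∧ MM (-b) ≤ 1 ∧ 0 ≤ mm (-b) ∧ mm (-b) ≤ 2 / (1 + b) ∧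
    b * mm (-b) ≤ 1 ∧ (QQ (b : ℂ)) = (MM (-b) : ℂ) ∧ ∀ s : ℝ, ‖QQ (b + s * Complex.I)‖ ≤ MM (-b)

/-- TRF. The characteristic function. Proof (may assume TR0): the left hand side is
`∫_0^1 e^((a + i s) x) dx`, and for `a > 0` substitute `x ↦ 1 - x`. -/
def TrfStmt : Prop := ∀ a s : ℝ,
  (MM a : ℂ) * ∫ x, Complex.exp (Complex.I * s * x) ∂(tl a) =
    if 0 < a then Complex.exp (a + Complex.I * s) * QQ (a + Complex.I * s)
    else QQ (|a| - Complex.I * s)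

/-! ### Brunn-Minkowski -/

/-- PL. The Prekopa-Leindler inequality for bounded functions with bounded support. Proof: induction
on `n`. For `n = 1`: it is enough to treat `sup f, sup g > 0` (else one side is zero), and by
scaling `f, g, h` (h by the product of the powers) `sup f = sup g = 1`. For `0 < s < 1` the sets
`{f > s}, {g > s}` are nonempty and `(1-t){f > s} + t{g > s} ⊆ {h > s}`, so by the one-dimensional
Brunn-Minkowski inequality for measurable sets (inner regularity: compact `A, B`; translate so that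
`max A = 0 = min B`, then `A ∪ B ⊆ A + B` up to one point)
`|{h > s}| ≥ (1-t)|{f > s}| + t|{g > s}|`. Integrate over `s` (layer cake formula) and use the
arithmetic-geometric mean inequality. For the step `n → n+1` use Fubini in the first coordinate:
for fixed first coordinates `x0, y0` the sections satisfy the hypothesis, so the integrals of the
sections satisfy it. (The measurability in `n+1` variables is given, the marginals are measurable,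
bounded and of bounded support.) -/
def PlStmt : Prop := ∀ (n : ℕ) (f g h : (Fin n → ℝ) → ℝ) (t R : ℝ), 0 < t → t < 1 →
  Measurable f → Measurable g → Measurable h →
  (∀ x, 0 ≤ f x ∧ f x ≤ R) → (∀ x, 0 ≤ g x ∧ g x ≤ R) → (∀ x, 0 ≤ h x ∧ h x ≤ R) →
  (∀ x, (∃ i, R < |x i|) → f x = 0 ∧ g x = 0 ∧ h x = 0) →
  (∀ x y, f x ^ (1 - t) * g y ^ t ≤ h (fun i => (1 - t) * x i + t * y i)) →
  (∫ x, f x) ^ (1 - t) * (∫ x, g x) ^ t ≤ ∫ x, h x

/-- LCF. `ff` is log-concave and measurable. Proof (may assume PL). For `w` let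
`K w = {x ∈ [0,1]^N | ∀ i, 0 ≤ (C x) i - w i ≤ S i}`, a compact set, and
`(1-t) K w + t K w' ⊆ K ((1-t) w + t w')`; PL for the indicator functions. (`ff w` is
`volume (K w) / ∏ S i`, and `∏ S i = (∏ S i)^(1-t) (∏ S i)^t`.) Measurability: Fubini
(`measurable_measure_prodMk_left` for the closed set of the pairs `(w, x)`). -/
def LcfStmt : Prop := ∀ (N d : ℕ) (C : Fin N → Fin d → ℝ) (S : Fin d → ℝ), (∀ i, 0 < S i) →
  LC (ff C S) ∧ Measurable (ff C S) ∧ ∀ w, 0 ≤ ff C S w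

/-- LCP. `pp` is log-concave, measurable and nonnegative. Proof (may assume LCF): `pp y` is a
positive constant times the exponential of an affine function of `y` times `ff` of an affine
function of `y`. -/
def LcpStmt : Prop := ∀ (N d : ℕ) (C : Fin N → Fin d → ℝ) (S e lam : Fin d → ℝ)
  (T : Matrix (Fin d) (Fin d) ℝ), (∀ i, 0 < S i) → T.det ≠ 0 →
  LC (pp C S e lam T) ∧ Measurable (pp C S e lam T) ∧ ∀ y, 0 ≤ pp C S e lam T y

/-! ### The law of `YY` -/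

/-- DENS. The density of `YY` is `pp`. Proof: for a measurable `φ ≥ 0` the integral of
`φ (YY z)` is `(∏ MM a_j)⁻¹ ∫_{x ∈ [0,1]^N} ∫_{s ∈ [0,1]^d} e^(lam · (C x - S s)) φ (T (C x - S s - e))`
(the tilts multiply to `e^(∑ a_j z_j)`, `∑ a_j z_j = lam · ∑ W_j z_j`; the law on
`Fin N ⊕ Fin d → ℝ` is the product of the laws on the two parts,
`MeasurableEquiv.sumPiEquivProdPi`, `measurePreserving_sumPiEquivProdPi`). Substitute
`w = C x - S s` in the inner integral (`ds = dw / ∏ S i`), exchange the integrals, recognise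
`ff w`, and substitute `y = T (w - e)`. -/
def DensStmt : Prop := ∀ (N d : ℕ) (C : Fin N → Fin d → ℝ) (S e lam : Fin d → ℝ)
  (T : Matrix (Fin d) (Fin d) ℝ), (∀ i, 0 < S i) → T.det ≠ 0 →
  (pr C S lam).map (YY C S e T) =
    volume.withDensity fun y => ENNReal.ofReal (pp C S e lam T y)

/-- The exponential moments, the mean and the variance of a law on `Fin d → ℝ`. -/
def Mom {d : ℕ} (P : Measure (Fin d → ℝ)) (m : Fin d → ℝ) : Prop :=
  IsProbabilityMeasure P ∧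
  (∀ th : Fin d → ℝ, ∑ i, th i ^ 2 ≤ 1 / 16 →
    Integrable (fun y => Real.exp (∑ i, th i * (y i - m i))) P ∧
    ∫ y, Real.exp (∑ i, th i * (y i - m i)) ∂P ≤ Real.exp (18 * ∑ i, th i ^ 2)) ∧
  (∀ th : Fin d → ℝ, ∫ y, ∑ i, th i * (y i - m i) ∂P = 0 ∧
    1 / 64 * ∑ i, th i ^ 2 ≤ ∫ y, (∑ i, th i * (y i - m i)) ^ 2 ∂P)

/-- MOM. Proof (may assume TR0, TRU, TRV). The mean of `YY` is `T g`. For `θ` put
`δ_j = ∑ i, θ i * (T W_j) i`; then `∑ (δ_j r_j)^2 = θᵀ T HH Tᵀ θ = ∑ h i (θ i)^2` lies between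
`(∑ θ^2)/2` and `4 ∑ θ^2`. By independence (`∑ θ i (y i - m i) = ∑ δ_j (z_j - mm a_j)`, integrals of
products over `Measure.pi`) the exponential moment is
`exp (∑ (GG (a_j + δ_j) - GG a_j - δ_j mm a_j)) ≤ exp ((9/2) ∑ δ_j^2 r_j^2)` by TRU, as
`|δ_j| r_j ≤ 2 |θ| ≤ 1/2`. The variance is `∑ δ_j^2 Var (tl a_j) ≥ (1/32) ∑ δ_j^2 r_j^2`. All
functions are continuous and the law of `z` lives on a compact set. -/
def MomStmt : Prop := ∀ (N d : ℕ) (C : Fin N → Fin d → ℝ) (S e lam : Fin d → ℝ)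
  (T : Matrix (Fin d) (Fin d) ℝ), Nor C S lam T →
  Mom ((pr C S lam).map (YY C S e T)) (T.mulVec (gg C S e lam))

/-- SUP. The law of `YY` has a density of at most `(2n)^d`. Proof (may assume TR0, TRD). By the
Cauchy-Binet formula (there are versions in `Pool/Agent/Helper37/Poly/CB.lean` and
`Pool/Agent/Helper36/Ru/CB.lean`) the sum over the `d`-element sets `J` of columns of
`det (T W_J R_J)^2`, `R = diag r`, is `det (T HH Tᵀ) = ∏ h i ≥ 2^(-d)`. So for some `J` this square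
is at least `2^(-d) / n^d`, i.e. `∏_{j ∈ J} (1/r_j) / |det (T W_J)| ≤ (2n)^(d/2) ≤ (2n)^d` (for
`d = 0` all is trivial). Condition on the `z_j`, `j ∉ J` (Fubini): the vector `(z_j)_{j ∈ J}` has a
density of at most `∏_{j ∈ J} (1 + |a_j|)` by TRD, and `YY` is an affine function of it with linear
part `T W_J`, so the conditional density of `YY` is at most `∏ (1 + |a_j|) / |det (T W_J)|`. -/
def SupStmt : Prop := ∀ (N d : ℕ) (C : Fin N → Fin d → ℝ) (S e lam : Fin d → ℝ)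
  (T : Matrix (Fin d) (Fin d) ℝ), Nor C S lam T →
  ∀ A : Set (Fin d → ℝ), MeasurableSet A →
    ((pr C S lam).map (YY C S e T)) A ≤ ENNReal.ofReal ((2 * ((N : ℝ) + d)) ^ d) * volume A

/-! ### Log-concave densities -/

/-- DEP. A one-sided lower bound. Proof. `(x/4)^4/4! ≤ e^(|x|/4)` gives
`E X^4 ≤ 6144 (4 + 4) = 49152`. By Hölder `(E X^2)^3 ≤ (E |X|)^2 E X^4`, so
`E |X| ≥ ((1/64)^3/49152)^(1/2) ≥ 8.8e-6`, and `E X_+ = E |X| / 2 ≥ 4.4e-6`. With `s = 2e-6`,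
`E X_+ ≤ s + E [X; X > s] ≤ s + (E X^2 P(X > s))^(1/2)` and `E X^2 ≤ 222`, hence
`P (X > s) ≥ (2.4e-6)^2/222 ≥ 1e-14`. -/
def DepStmt : Prop := ∀ (ν : Measure ℝ), IsProbabilityMeasure ν →
  Integrable (fun x => Real.exp (x / 4)) ν → Integrable (fun x => Real.exp (-x / 4)) ν →
  ∫ x, Real.exp (x / 4) ∂ν ≤ 4 → ∫ x, Real.exp (-x / 4) ∂ν ≤ 4 →
  ∫ x, x ∂ν = 0 → 1 / 64 ≤ ∫ x, x ^ 2 ∂ν →
  ENNReal.ofReal (1 / 10 ^ 14) ≤ ν (Set.Ioi (2 / 10 ^ 6))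

/-- The lower bound for the density. -/
def plow (d : ℕ) : ℝ := 5 / 10 ^ 15 / (400 * (d : ℝ)) ^ d

/-- TAIL. Proof: Markov for `exp (± (y i - m i)/4)` (the exponential moments are at most
`e^(18/16) ≤ 4`), `|m i| ≤ 1`, union bound over `i`. -/
def TailStmt : Prop := ∀ (d : ℕ) (P : Measure (Fin d → ℝ)) (m : Fin d → ℝ), Mom P m →
  ∑ i, m i ^ 2 ≤ 1 / 10 ^ 13 → ∀ R : ℝ, 0 ≤ R →
    (P {y | ∃ i, R < |y i|}).toReal ≤ 8 * d * Real.exp (-(R - 1) / 4)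

/-- LOW. Proof (may assume DEP, TAIL). Let `∑ y^2 ≤ 10^(-12)`. The set `K = {x | p x > p y}` is
convex (log-concavity) and `y ∉ K`. There is a unit vector `θ` with `θ·x ≤ θ·y` for all `x ∈ K`
(if the interior of `K` is empty then `K` is contained in a hyperplane: take its normal with the
right sign, then `K` is a null set or lies on one side; else separate `y` from the open convex set
`interior K`, and `K` is contained in the closure of its interior). So `p ≤ p y` on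
`H = {x | θ·x > θ·y}` (up to a null set in the hyperplane case). The law of `X = θ·(Y - m)` fulfils
the hypotheses of DEP (`θ/4` has `∑ = 1/16`, `e^(18/16) ≤ 4`), and
`θ·y - θ·m ≤ 10^(-6) + 4·10^(-7) < 2·10^(-6)`, so `P H ≥ 10^(-14)`. On the other hand
`P H ≤ p y (400 d)^d + P {∃ i, |Y i| > 200 d}`, and the last term is at most
`8 d e^(1/4 - 50 d) ≤ 5·10^(-15)` by TAIL. -/
def LowStmt : Prop := ∀ (d : ℕ), 1 ≤ d → ∀ (p : (Fin d → ℝ) → ℝ) (m : Fin d → ℝ), Measurable p →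
  (∀ y, 0 ≤ p y) → LC p → Mom (volume.withDensity fun y => ENNReal.ofReal (p y)) m →
  ∑ i, m i ^ 2 ≤ 1 / 10 ^ 13 → ∀ y : Fin d → ℝ, ∑ i, y i ^ 2 ≤ 1 / 10 ^ 12 → plow d ≤ p y

/-- SPP. Proof. The bound holds almost everywhere. If `p x > B`, then for small `t > 0` all points of
the set `{(1-t) x + t y | ∑ y^2 ≤ 10^(-12)}`, which has positive volume, have
`p ≥ (p x)^(1-t) c^t > B`, a contradiction. -/
def SppStmt : Prop := ∀ (d : ℕ) (p : (Fin d → ℝ) → ℝ) (c B : ℝ), Measurable p → (∀ y, 0 ≤ p y) →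
  LC p → 0 < c → (∀ y : Fin d → ℝ, ∑ i, y i ^ 2 ≤ 1 / 10 ^ 12 → c ≤ p y) →
  (∀ A : Set (Fin d → ℝ), MeasurableSet A →
    (volume.withDensity fun y => ENNReal.ofReal (p y)) A ≤ ENNReal.ofReal B * volume A) →
  ∀ y, p y ≤ B

/-- LIP. Proof. Let `t0 = 10^(-6)`, `|y| = (∑ y^2)^(1/2) ≤ t0`, `y ≠ 0`, `u = (t0/|y|) y`,
`s = |y|/t0`, `A = log (B/c)`. From `y = (1-s) 0 + s u`: `p y ≥ (p 0)^(1-s) (p u)^s ≥ p 0 (c/B)^s`.
From `0 = (1-s') y + s' (-u)` with `s' = s/(1+s)`: `p 0 ≥ (p y)^(1-s') (p (-u))^(s')`, so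
`p y ≤ p 0 (p 0/p(-u))^s ≤ p 0 (B/c)^s`. -/
def LipStmt : Prop := ∀ (d : ℕ) (p : (Fin d → ℝ) → ℝ) (c B : ℝ), LC p → 0 < c →
  (∀ y : Fin d → ℝ, ∑ i, y i ^ 2 ≤ 1 / 10 ^ 12 → c ≤ p y) → (∀ y, p y ≤ B) →
  ∀ y : Fin d → ℝ, ∑ i, y i ^ 2 ≤ 1 / 10 ^ 12 →
    p 0 * Real.exp (-(Real.log (B / c) * (10 ^ 6 * Real.sqrt (∑ i, y i ^ 2)))) ≤ p y ∧
    p y ≤ p 0 * Real.exp (Real.log (B / c) * (10 ^ 6 * Real.sqrt (∑ i, y i ^ 2)))

/-! ### The kernel -/

/-- KER. The one-dimensional kernel. Proof: `∫_{-π}^{π} cos(θ/2)^(2M) dθ = 2π C(2M,M)/4^M`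
(expand `(e^(iθ/2) + e^(-iθ/2))^(2M)`, or Wallis, `integral_cos_pow`); `cos x ≤ e^(-x^2/2)` for
`|x| ≤ π/2`; `four_pow_le_two_mul_self_mul_centralBinom`; binomial formula and
`C(2M, M+k) / C(2M, M) = ∏_{i<|k|} (M-i)/(M+i+1)`. -/
def KerStmt : Prop := ∀ (h : ℝ) (M : ℕ), 0 < h → 1 ≤ M →
  0 < kap h M ∧ kap h M ≤ h * M / Real.pi ∧
  (∫ y in (-(Real.pi / h))..(Real.pi / h), kap h M * Real.cos (h * y / 2) ^ (2 * M)) = 1 ∧
  (∀ y : ℝ, |y| ≤ Real.pi / h →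
    Real.cos (h * y / 2) ^ (2 * M) ≤ Real.exp (-(M * h ^ 2 * y ^ 2 / 4))) ∧
  (∀ y : ℝ, ((kap h M * Real.cos (h * y / 2) ^ (2 * M) : ℝ) : ℂ) =
    (h / (2 * Real.pi) : ℝ) * ∑ k ∈ Finset.Icc (-(M : ℤ)) M,
      (wt M k : ℂ) * Complex.exp (Complex.I * (h * k * y)))

/-- THN. The kernel in `d` dimensions. Proof (may assume KER): Fubini for products
(`integral_fintype_prod_eq_prod` and its set versions); the part of the cube `|y i| ≤ π/h` outside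
the small cube is the union of the `d` sets `ρ < |y i| ≤ π/h`, and in one dimension
`∫_{ρ < |y| ≤ π/h} κ cos^(2M) ≤ κ (2π/h) e^(-M h^2 ρ^2/4) ≤ 2 M e^(-M h^2 ρ^2/4)`. -/
def ThnStmt : Prop := ∀ (d : ℕ) (h ρ : ℝ) (M : ℕ), 0 < h → 1 ≤ M → 0 ≤ ρ → ρ ≤ Real.pi / h →
  (∀ y : Fin d → ℝ, 0 ≤ TH h M y ∧ TH h M y ≤ (h * M / Real.pi) ^ d) ∧
  (∫ y in {y : Fin d → ℝ | ∀ i, |y i| ≤ Real.pi / h}, TH h M y) = 1 ∧
  (∫ y in {y : Fin d → ℝ | (∀ i, |y i| ≤ Real.pi / h) ∧ ∃ i, ρ < |y i|}, TH h M y) ≤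
    2 * d * M * Real.exp (-(M * h ^ 2 * ρ ^ 2 / 4))

/-- ANA. The kernel reproduces the density at `0`. Proof (may assume TAIL, LOW, SPP, LIP, THN). Put
`h = 1/(200 X^2)`, `M = 10^30 X^12`, `ρ = 10^(-9)/X^3`, `c = plow d`, `B = (2n)^d`, `A = log (B/c)`.
As `X ≥ 2d`, `X ≥ 2q`, `log (2n) ≤ 0.7 (log₂ n + 2)`, `d ≤ n`: `A ≤ 25 X` (precisely
`A ≤ 0.7 X + 33 + 6 d + 0.7 d (log₂ n + 1)`). By LOW and SPP `c ≤ p ≤ B` on the ball of radius
`10^(-6)`, resp. everywhere. Split the integral of `TH · p`.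
(1) All `|y i| ≤ ρ`: `|y| ≤ √d ρ ≤ 10^(-6)`, and `A 10^6 |y| ≤ 0.025 √d / X^2 ≤ 1/(32 q)`, so by LIP
`|p y - p 0| ≤ p 0 / (30 q)`; the integral of `TH` over this cube is in `[1 - η, 1]`,
`η = 2 d M e^(-M h^2 ρ^2/4)`, `M h^2 ρ^2/4 = 6.25·10^6 X^2`.
(2) `|y i| ≤ π/h` for all `i`, `ρ < |y i|` for some `i`: at most
`B η ≤ c e^(25 X + 70 + 13 log X - 6.25·10^6 X^2) ≤ p 0 /(100 q)`.
(3) `|y i| > π/h` for some `i`: at most `(h M/π)^d 8 d e^(-(π/h - 1)/4)` by TAIL, with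
`h M/π ≤ 10^28 X^10` and `π/(4h) ≥ 157 X^2`; divided by `c` this is at most
`exp (33 X + 5 X log X + 34 + log (8X) + 3 X + X log X / 2 - 157 X^2) ≤ 1/(100 q)`.
Altogether the error is at most `p 0 / (8q)`. -/
def AnaStmt : Prop := ∀ d n q X : ℕ, 1 ≤ d → d ≤ n → 1 ≤ q → d * (Nat.log 2 n + 2) * q ≤ X →
  ∀ (p : (Fin d → ℝ) → ℝ) (m : Fin d → ℝ), Measurable p → (∀ y, 0 ≤ p y) → LC p →
  Mom (volume.withDensity fun y => ENNReal.ofReal (p y)) m → ∑ i, m i ^ 2 ≤ 1 / 10 ^ 13 →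
  (∀ A : Set (Fin d → ℝ), MeasurableSet A →
    (volume.withDensity fun y => ENNReal.ofReal (p y)) A ≤
      ENNReal.ofReal ((2 * (n : ℝ)) ^ d) * volume A) →
  plow d ≤ p 0 ∧
  |(∫ y, TH (1 / (200 * (X : ℝ) ^ 2)) (10 ^ 30 * X ^ 12) y
      ∂(volume.withDensity fun y => ENNReal.ofReal (p y))) - p 0| ≤ p 0 / (8 * q)

/-! ### The exact formula -/

/-- `s_jk`: the frequency of the variable `j`. -/
def sjk {N d : ℕ} (C : Fin N → Fin d → ℝ) (S : Fin d → ℝ) (T : Matrix (Fin d) (Fin d) ℝ)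
    (h : ℝ) (k : Fin d → ℤ) (j : Fin N ⊕ Fin d) : ℝ :=
  ∑ i, h * k i * ∑ i', T i i' * col C S j i'

/-- The exponent `E`. -/
def Eex {N d : ℕ} (C : Fin N → Fin d → ℝ) (S e lam : Fin d → ℝ) : ℝ :=
  (∑ j, max (aa C S lam j) 0) - ∑ i, lam i * e i

/-- The phase `Ψ_k`. -/
def Psi {N d : ℕ} (C : Fin N → Fin d → ℝ) (S e lam : Fin d → ℝ) (T : Matrix (Fin d) (Fin d) ℝ)
    (h : ℝ) (k : Fin d → ℤ) : ℝ :=
  (∑ j, if 0 < aa C S lam j then sjk C S T h k j else 0) - ∑ i, h * k i * ∑ i', T i i' * e i'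

/-- The argument `ζ_jk`. -/
def zeta {N d : ℕ} (C : Fin N → Fin d → ℝ) (S lam : Fin d → ℝ) (T : Matrix (Fin d) (Fin d) ℝ)
    (h : ℝ) (k : Fin d → ℤ) (j : Fin N ⊕ Fin d) : ℂ :=
  (|aa C S lam j| : ℝ) + Complex.I *
    ((if 0 < aa C S lam j then sjk C S T h k j else - sjk C S T h k j : ℝ) : ℂ)

/-- The summand of the frequency `k`. -/
def summand {N d : ℕ} (C : Fin N → Fin d → ℝ) (S e lam : Fin d → ℝ)
    (T : Matrix (Fin d) (Fin d) ℝ) (h : ℝ) (M : ℕ) (k : Fin d → ℤ) : ℂ :=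
  ((∏ i, wt M (k i) : ℝ) : ℂ) *
    (Complex.exp ((Eex C S e lam : ℂ) + Complex.I * (Psi C S e lam T h k : ℂ)) *
      ∏ j, QQ (zeta C S lam T h k j))

/-- CHF. Proof (may assume TR0, TRF, KER). By KER the kernel is
`(h/2π)^d ∑_k (∏ wt M (k i)) e^(i h k·y)` (product of sums, `Finset.prod_univ_sum`). By independence
the expectation of `e^(i h k·Y)` is `e^(-i h k·T e) ∏_j E e^(i s_jk z_j)`
(`integral_fintype_prod_eq_prod` for `Measure.pi`), and TRF. The factors `e^(a_j + i s_jk)` for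
`a_j > 0` are collected in the exponent. -/
def ChfStmt : Prop := ∀ (N d : ℕ) (C : Fin N → Fin d → ℝ) (S e lam : Fin d → ℝ)
  (T : Matrix (Fin d) (Fin d) ℝ) (h : ℝ) (M : ℕ), 0 < h → 1 ≤ M →
  ((∫ y, TH h M y ∂((pr C S lam).map (YY C S e T)) : ℝ) : ℂ) *
      (((∏ j, MM (aa C S lam j)) * Real.exp (-∑ i, lam i * e i) : ℝ) : ℂ) =
    ((h / (2 * Real.pi)) ^ d : ℝ) * ∑ k ∈ grid M, summand C S e lam T h M k

/-- EV1. The exact sum approximates the volume of the slice. Proof (may assume TRQ, DENS, LCP, MOM,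
SUP, ANA, CHF; `T.det ≠ 0` follows from `Nor`). `pp C S e lam T 0` is
`exp (lam·e) ff e / ((∏ MM a_j) |det T|)`, i.e.
`ff e = |det T| · pp 0 · (∏ MM a_j) e^(-lam·e)`, and `(∏ MM a_j) e^(-lam·e) = e^E ∏ MM (-|a_j|)` by
TRQ. Apply ANA to `p = pp` (with `n = N + d`, the law by DENS) and CHF. -/
def Ev1Stmt : Prop := ∀ (N d q X : ℕ) (C : Fin N → Fin d → ℝ) (S e lam : Fin d → ℝ)
  (T : Matrix (Fin d) (Fin d) ℝ), 1 ≤ d → 1 ≤ q → d * (Nat.log 2 (N + d) + 2) * q ≤ X →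
  (∀ i, 0 < S i) → Nor C S lam T → ∑ i, (T.mulVec (gg C S e lam) i) ^ 2 ≤ 1 / 10 ^ 13 →
  |T.det| * plow d * Real.exp (Eex C S e lam) * ∏ j, MM (-|aa C S lam j|) ≤ ff C S e ∧
  |(|T.det| * (1 / (200 * (X : ℝ) ^ 2) / (2 * Real.pi)) ^ d *
      (∑ k ∈ grid (10 ^ 30 * X ^ 12),
        summand C S e lam T (1 / (200 * (X : ℝ) ^ 2)) (10 ^ 30 * X ^ 12) k).re) - ff C S e| ≤
    ff C S e / (8 * q)

/-- BND. Bounds for the exponents. Proof (may assume TRQ, TR0). Let `y = T g`, `n = N + d`.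
`E = ∑ (max a_j 0 - a_j mm a_j) + lam·g`, and each term of the sum is `|a_j| mm (-|a_j|) ∈ [0,1]`.
With `μ = (Tᵀ)⁻¹ lam`: `lam·g = μ·y` and `(1/2)|μ|^2 ≤ μᵀ diag(h) μ = lamᵀ HH lam = ∑ (a_j r_j)^2 ≤ n`,
so `|lam·g| ≤ √(2n) √(10^(-13)) ≤ n`. With `t = h k`, `|t| ≤ √d h M`:
`∑ (s_jk r_j)^2 = tᵀ T HH Tᵀ t ≤ 4 |t|^2`, so `|s_jk| ≤ 2 |t| (1 + |a_j|)`, and
`Ψ_k = t·y + ∑_{a_j>0} s_jk (1 - mm a_j) - ∑_{a_j≤0} s_jk mm a_j`, where
`1 - mm a_j = mm (-a_j) ≤ 2/(1+|a_j|)`, so `|Ψ_k| ≤ |t| + 4 n |t|`. -/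
def BndStmt : Prop := ∀ (N d M : ℕ) (C : Fin N → Fin d → ℝ) (S e lam : Fin d → ℝ)
  (T : Matrix (Fin d) (Fin d) ℝ) (h : ℝ) (k : Fin d → ℤ), 0 < h → 1 ≤ d →
  Nor C S lam T → ∑ i, (T.mulVec (gg C S e lam) i) ^ 2 ≤ 1 / 10 ^ 13 → k ∈ grid M →
  |Eex C S e lam| ≤ 2 * (N + d) ∧
  |Psi C S e lam T h k| ≤ (4 * (N + d) + 1) * (d * h * M) ∧
  ∀ j, |sjk C S T h k j| ≤ 2 * (d * h * M) * (1 + |aa C S lam j|)

/-! ### The function `FF` -/

/-- DEC. Near minimality implies a small gradient. Proof (may assume TRU). Let `y = T g`,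
`Y = (∑ y^2)^(1/2)`, and for `s > 0` let `Δ = - s Tᵀ y`, so `g·Δ = - s Y^2` and
`δ_j = Δ·W_j` has `∑ (δ_j r_j)^2 = s^2 yᵀ T HH Tᵀ y ≤ 4 s^2 Y^2`. If `2 s Y ≤ 1/2`, then TRU gives
`FF (lam + Δ) ≤ FF lam - s Y^2 + 18 s^2 Y^2`. If `Y ≤ 9` take `s = 1/36`: the decrease is `Y^2/72`,
so `Y^2 ≤ 72 ε`. If `Y > 9` take `s = 1/(4Y)`: the decrease is `Y/4 - 9/8 > 1 > ε`, impossible. -/
def DecStmt : Prop := ∀ (N d : ℕ) (C : Fin N → Fin d → ℝ) (S e lam : Fin d → ℝ)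
  (T : Matrix (Fin d) (Fin d) ℝ) (ε : ℝ), Nor C S lam T → 0 ≤ ε → ε < 1 →
  (∀ lam', FF C S e lam - ε ≤ FF C S e lam') → ∑ i, (T.mulVec (gg C S e lam) i) ^ 2 ≤ 72 * ε

/-- GRO. Growth, gradient inequality and Lipschitz bound. Proof (may assume TRC, TRG, TR0). (1) TRG
with `c = z_j`, as `FF lam = ∑ (GG a_j - a_j z_j)`. (2) TRC, `a'_j - a_j = (lam' - lam)·W_j`.
(3) From (2) in both directions, `0 ≤ mm ≤ 1`. (4) `GG 0 = 0`. -/
def GroStmt : Prop := ∀ (N d : ℕ) (C : Fin N → Fin d → ℝ) (S e : Fin d → ℝ),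
  (∀ (σ : ℝ) (z : Fin N ⊕ Fin d → ℝ), 0 < σ → (∀ j, σ ≤ z j ∧ z j ≤ 1 - σ) →
    (∀ i, ∑ j, col C S j i * z j = e i) → ∀ lam,
      σ / 2 * ∑ j, |aa C S lam j| - (N + d) * Real.log (2 / σ) ≤ FF C S e lam) ∧
  (∀ lam lam', FF C S e lam + ∑ i, gg C S e lam i * (lam' i - lam i) ≤ FF C S e lam') ∧
  (∀ lam lam', |FF C S e lam - FF C S e lam'| ≤
    ∑ i, |lam i - lam' i| * ((∑ j, |col C S j i|) + |e i|)) ∧ FF C S e 0 = 0

/-- The margin of an interior point. -/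
def sig (N d β : ℕ) : ℝ := 1 / ((2 * N + d : ℕ) * 2 ^ (N ^ 2 + 2 * β * N + β))

/-- INT. A full-dimensional slice has a point with a good margin. Proof. Let
`K = {x ∈ [0,1]^N | ∀ i, e i ≤ (C x) i}`, compact and convex, described by `2N + d` inequalities
`ℓ x ≥ 0` with nonconstant `ℓ` (by hypothesis every row has a nonzero coefficient). Each zero set
`{ℓ = 0}` is a hyperplane, so a null set, so `ℓ` is positive somewhere on `K`. The set where `ℓ`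
attains its maximum on `K` is a compact exposed face; it has an extreme point `v`
(`IsCompact.extremePoints_nonempty`), which is an extreme point of `K`. The gradients of the
inequalities which are tight at `v` span `ℝ^N`: otherwise some `u ≠ 0` is orthogonal to all of them
and `v ± ε u ∈ K` for small `ε > 0`. Choose `N` linearly independent ones; multiplied by `D` (the
rows) they form an integer matrix `A` with entries of absolute value at most `2^(2β)`, and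
`A v = b` with an integer vector `b`, so `det A · v` is an integer vector (Cramer) and
`det A · D · ℓ v` is an integer (for `ℓ = (C x) i - e i`; similarly for `ℓ = x j` and
`ℓ = 1 - x j`); it is not zero, `|det A| ≤ N! 2^(2βN) ≤ 2^(N^2 + 2βN)`, `D ≤ 2^β`; so
`ℓ v ≥ 2^(-(N^2 + 2βN + β))`. The average of the `2N + d` points `v` has the required margins. -/
def IntStmt : Prop := ∀ (N d β D : ℕ) (C : Fin N → Fin d → ℝ) (e : Fin d → ℝ), 1 ≤ N → 1 ≤ D →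
  D ≤ 2 ^ β → (∀ i j, ∃ z : ℤ, (D : ℝ) * C j i = z) → (∀ i, ∃ z : ℤ, (D : ℝ) * e i = z) →
  (∀ i j, |C j i| ≤ 2 ^ β) → (∀ i, |e i| ≤ 2 ^ β) → (∀ i, ∃ j, C j i ≠ 0) →
  0 < volume {x : Fin N → ℝ | (∀ j, 0 ≤ x j ∧ x j ≤ 1) ∧ ∀ i, e i ≤ ∑ j, C j i * x j} →
  ∃ x : Fin N → ℝ, (∀ j, sig N d β ≤ x j ∧ x j ≤ 1 - sig N d β) ∧
    ∀ i, sig N d β ≤ (∑ j, C j i * x j) - e i

end

end Pool.Agent.Helper92.FR
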