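import Pool.Agent.Helper92.FR.Alg

/-!
# Few rows in a box: goals, part C (polynomial time)

Tools: `Pool/Agent/Helper81/Comp*.lean` (`PolyTime.list_map`, `PolyTime.foldl_bd`,
`PolyTime.iterate_bd`, `PolyTime.find?`, `PolyTime.all`, …), `Pool/Agent/Helper59/Bin.lean` (binary
numbers), `Pool.Agent.Helper92.FR.Num`, `NumC` (all operations of `Qn` and `Cn` are `fun_prop`
lemmas; `Qn.sum`, `Qn.prod` also), `Pool.Agent.Helper3.DT.pt_cpw`, `pt_log`. Sizes: `Qn.sz_le`,
`Qn.mu_le`, `Qn.mu_mul`, … A composition of `PolyTime` functions is `PolyTime`, whatever the sizes;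
bounds are only needed for `foldl` and `iterate`.
-/

namespace Pool.Agent.Helper92.FR

open Pool.Agent.Helper81.CC Pool.Agent.Bin Pool.Agent.Helper92.VP

/-- PTE. Elimination. Proof: `foldl_bd` (or `iterate_bd`) over `List.range (m a)`. Let
`B ≥ 2` bound `Qn.mu` of all entries of both matrices of a state. The entry `u - (x * inv y) * v` has
`mu ≤ B^4` (`mu_sub`, `mu_mul`, `mu_inv`; `mu Qn.zero = 1`, missing entries are `Qn.zero`). So after
`k` steps `mu ≤ B0^(4^k) ≤ B0^W` with `B0 = 2^(sz (A a) + 2)`, and the size of an entry is at most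
`12 · (4^k (sz (A a) + 2)) + 5` (`Qn.sz_le`). The number of the entries does not grow
(`List.zipWith` gives the shorter length, rows at most as long as the longest row of `A` or the
number of the rows). -/
def PteStmt : Prop := ∀ (α : Type) [ToData α] (A : α → List (List Qn)) (m W : α → ℕ),
  PolyTime A → PolyTime m → PolyTime W → (∀ a, 4 ^ m a ≤ W a) →
  PolyTime (fun a => elim (A a) (m a))

/-- PTT. Proof (may assume PTE): compositions. -/
def PttStmt : Prop := ∀ (α : Type) [ToData α] (A : α → List (List Qn)) (m W : α → ℕ),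
  PolyTime A → PolyTime m → PolyTime W → (∀ a, 4 ^ m a ≤ W a) →
  PolyTime (fun a => tmat (A a) (m a)) ∧ PolyTime (fun a => tdet (A a) (m a))

/-- PTG. Proof: compositions. -/
def PtgStmt : Prop := ∀ (α : Type) [ToData α] (D : α → Nin) (lam : α → List Qn) (P K : α → ℕ),
  PolyTime D → PolyTime lam → PolyTime P → PolyTime K →
  PolyTime (fun a => hh (D a) (lam a)) ∧ PolyTime (fun a => gtil (D a) (lam a) (P a) (K a))

/-- PTP. Proof (may assume PTT, PTG): compositions. -/
def PtpStmt : Prop := ∀ (α : Type) [ToData α] (D : α → Nin) (lam : α → List Qn)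
  (P K m W : α → ℕ), PolyTime D → PolyTime lam → PolyTime P → PolyTime K → PolyTime m →
  PolyTime W → (∀ a, 4 ^ m a ≤ W a) → PolyTime (fun a => pass (D a) (lam a) (P a) (K a) (m a))

/-- PTC. One cutting plane step. Proof: compositions. -/
def PtcStmt : Prop := ∀ (α : Type) [ToData α] (d B : α → ℕ) (st : α → Cst) (g : α → List Qn),
  PolyTime d → PolyTime B → PolyTime st → PolyTime g →
  PolyTime (fun a => cut (d a) (st a) (g a)) ∧ PolyTime (fun a => cini (d a) (B a)) ∧
  PolyTime (fun a => cen (d a) (st a))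

/-- PTS. The states of the cutting plane method. Proof (may assume PTC, PTG): `iterate_bd`. After `k`
steps there are `d + 1` vertices with `d` coordinates each; if `p + p' ≤ Y` for all coordinates
`(p, p')` (missing ones are `(0, 0)`) then after one more step `p + p' ≤ Q Y + 2Q · 2Y = 5 Q Y`,
`Q = qsc d`, since `nfac ≤ 2 Q`; the denominator is multiplied by `Q`. So
`p + p' ≤ (5Q)^k (2d 2^B + 2^B)`, with at most `k log₂ (5Q) + B + 2d + 1` bits. -/
def PtsStmt : Prop := ∀ (α : Type) [ToData α] (D : α → Nin) (P K B k : α → ℕ),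
  PolyTime D → PolyTime P → PolyTime K → PolyTime B → PolyTime k →
  PolyTime (fun a => cst (D a) (P a) (K a) (B a) (k a))

/-- PTI. The tilt. Proof (may assume PTS, PTP, PTC): compositions. -/
def PtiStmt : Prop := ∀ (α : Type) [ToData α] (D : α → Nin) (P K B T m W : α → ℕ),
  PolyTime D → PolyTime P → PolyTime K → PolyTime B → PolyTime T → PolyTime m → PolyTime W →
  (∀ a, 4 ^ m a ≤ W a) → PolyTime (fun a => tilt (D a) (P a) (K a) (B a) (T a) (m a))

/-- PTF. The summand. Proof: compositions. -/
def PtfStmt : Prop := ∀ (α : Type) [ToData α] (D : α → Nin) (lam : α → List Qn)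
  (T : α → List (List Qn)) (P K KE W M H n0 : α → ℕ), PolyTime D → PolyTime lam → PolyTime T →
  PolyTime P → PolyTime K → PolyTime KE → PolyTime W → PolyTime M → PolyTime H → PolyTime n0 →
  PolyTime (fun a => smd (D a) (lam a) (T a) (P a) (K a) (KE a) (W a) (M a) (H a) (n0 a))

/-- PTV. The volume of the slice. Proof (may assume PTF, PTT, PTG): compositions. -/
def PtvStmt : Prop := ∀ (α : Type) [ToData α] (D : α → Nin) (lam : α → List Qn)
  (P K KE W M H m np W2 : α → ℕ), PolyTime D → PolyTime lam →
  PolyTime P → PolyTime K → PolyTime KE → PolyTime W → PolyTime M → PolyTime H → PolyTime m →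
  PolyTime np → PolyTime W2 → (∀ a, 4 ^ m a ≤ W2 a) →
  PolyTime (fun a => vslice (D a) (lam a) (P a) (K a) (KE a) (W a) (M a) (H a) (m a) (np a))

/-- PTN. The normalisation. Proof: compositions. -/
def PtnStmt : Prop := PolyTime nin ∧ PolyTime triv0 ∧ PolyTime wids ∧ PolyTime toRQ

end Pool.Agent.Helper92.FR
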