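import Pool.Agent.Helper92.FR.NumC
import Pool.Agent.Helper92.VP.Defs
import Pool.Agent.Helper3.DT.PTL

/-!
# Few rows in a box: the algorithm

All functions below are computed in polynomial time; natural numbers of the type `ℕ` are in unary,
`BN` in binary, `Qn` and `Cn` are exact rational and complex rational numbers.
-/

namespace Pool.Agent.Helper92.FR

open Pool.Agent.Helper81.CC Pool.Agent.Bin Pool.Agent.Helper92.VP

/-- The scalar product of two vectors. -/
def dot (x y : List Qn) : Qn := Qn.sum (List.zipWith Qn.mul x y)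

/-- `1 / n` for `n ≥ 1`. -/
def invNat (n : ℕ) : Qn := (⟨1⟩, ⟨0⟩, BN.ofNat n - ⟨1⟩)

/-- A natural number. -/
def qNat (n : ℕ) : Qn := Qn.ofBN (BN.ofNat n)

/-- A normalised instance: the list of the columns `C j`, the list of the `S i` and the list of the
`e i`. -/
abbrev Nin := List (List Qn) × List Qn × List Qn

/-- The slack columns. -/
def slackCols (S : List Qn) : List (List Qn) :=
  (List.range S.length).map fun i => (List.range S.length).map fun i' =>
    if i' = i then Qn.neg (S.getD i Qn.zero) else Qn.zero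

/-- All columns. -/
def cols (D : Nin) : List (List Qn) := D.1 ++ slackCols D.2.1

/-- The number of the rows. -/
def nrow (D : Nin) : ℕ := D.2.1.length

/-- `1 / (1 + |a|)`. -/
def rj (a : Qn) : Qn := Qn.inv (Qn.add Qn.one (Qn.abs a))

/-- The surrogate Hessian. -/
def hh (D : Nin) (lam : List Qn) : List (List Qn) :=
  (List.range (nrow D)).map fun i => (List.range (nrow D)).map fun i' =>
    Qn.sum ((cols D).map fun w =>
      Qn.mul (Qn.mul (rj (dot lam w)) (rj (dot lam w)))
        (Qn.mul (w.getD i Qn.zero) (w.getD i' Qn.zero)))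

/-- `x - f y`. -/
def rowsub (f : Qn) (x y : List Qn) : List Qn :=
  List.zipWith (fun u v => Qn.sub u (Qn.mul f v)) x y

/-- One step of the elimination: below the row `i` the column `i` is cleared. -/
def elimStep (st : List (List Qn) × List (List Qn)) (i : ℕ) :
    List (List Qn) × List (List Qn) :=
  ((List.range st.1.length).map fun r => if i < r then
      rowsub (Qn.mul ((st.1.getD r []).getD i Qn.zero)
        (Qn.inv ((st.1.getD i []).getD i Qn.zero))) (st.1.getD r []) (st.1.getD i [])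
    else st.1.getD r [],
   (List.range st.1.length).map fun r => if i < r then
      rowsub (Qn.mul ((st.1.getD r []).getD i Qn.zero)
        (Qn.inv ((st.1.getD i []).getD i Qn.zero))) (st.2.getD r []) (st.2.getD i [])
    else st.2.getD r [])

/-- The identity matrix. -/
def idM (n : ℕ) : List (List Qn) :=
  (List.range n).map fun i => (List.range n).map fun i' => if i' = i then Qn.one else Qn.zero

/-- Elimination with `m` steps. -/
def elim (A : List (List Qn)) (m : ℕ) : List (List Qn) × List (List Qn) :=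
  (List.range m).foldl elimStep (A, idM A.length)

/-- A power of two `ρ` with `1/2 ≤ ρ^2 x ≤ 4`, for `x > 0`. -/
def scl (x : Qn) : Qn :=
  if (x.2.2 + ⟨1⟩).size ≤ (x.1 - x.2.1).size then
    (⟨1⟩, ⟨0⟩, BN.pow2 (((x.1 - x.2.1).size - (x.2.2 + ⟨1⟩).size) / 2) - ⟨1⟩)
  else Qn.ofBN (BN.pow2 (((x.2.2 + ⟨1⟩).size - (x.1 - x.2.1).size + 1) / 2))

/-- The pivots after the elimination. -/
def pivs (A : List (List Qn)) (m : ℕ) : List Qn :=
  (List.range A.length).map fun i => ((elim A m).1.getD i []).getD i Qn.zero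

/-- The normalising matrix. -/
def tmat (A : List (List Qn)) (m : ℕ) : List (List Qn) :=
  (List.range A.length).map fun i =>
    ((elim A m).2.getD i []).map (Qn.mul (scl ((pivs A m).getD i Qn.zero)))

/-- Its determinant. -/
def tdet (A : List (List Qn)) (m : ℕ) : Qn := Qn.prod ((pivs A m).map scl)

/-- `x^k / k!`. -/
def pf (x : Qn) (k : ℕ) : Qn :=
  Qn.prod ((List.range k).map fun i => Qn.mul x (invNat (i + 1)))

/-- `∑_{k<K} x^k / (k! (k+j))`. -/
def serM (j K : ℕ) (x : Qn) : Qn :=
  Qn.sum ((List.range K).map fun k => Qn.mul (pf x k) (invNat (k + j)))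

/-- The approximation of the mean `mm a`. -/
def mtil (P K : ℕ) (a : Qn) : Qn :=
  if Qn.le a Qn.zero = true then
    (if Qn.le (qNat P) (Qn.abs a) = true then Qn.inv (Qn.abs a)
      else Qn.mul (serM 2 K (Qn.neg (Qn.abs a))) (Qn.inv (serM 1 K (Qn.neg (Qn.abs a)))))
  else Qn.sub Qn.one
    (if Qn.le (qNat P) (Qn.abs a) = true then Qn.inv (Qn.abs a)
      else Qn.mul (serM 2 K (Qn.neg (Qn.abs a))) (Qn.inv (serM 1 K (Qn.neg (Qn.abs a)))))

/-- The approximation of the gradient. -/
def gtil (D : Nin) (lam : List Qn) (P K : ℕ) : List Qn :=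
  (List.range (nrow D)).map fun i =>
    Qn.sub (Qn.sum ((cols D).map fun w => Qn.mul (mtil P K (dot lam w)) (w.getD i Qn.zero)))
      (D.2.2.getD i Qn.zero)

/-- The test: is the normalised gradient small? -/
def pass (D : Nin) (lam : List Qn) (P K m : ℕ) : Bool :=
  Qn.le (Qn.sum ((tmat (hh D lam) m).map fun t =>
    Qn.mul (dot t (gtil D lam P K)) (dot t (gtil D lam P K)))) (invNat (10 ^ 14))

/-! ### Cutting planes -/

/-- The state: the vertices of a simplex, with a common denominator. -/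
abbrev Cst := List (List (BN × BN)) × BN

/-- The vertex `i`. -/
def vert (st : Cst) (i : ℕ) : List Qn := (st.1.getD i []).map fun z => (z.1, z.2, st.2 - ⟨1⟩)

/-- The centroid (in dimension `d`). -/
def cen (d : ℕ) (st : Cst) : List Qn :=
  (List.range d).map fun l =>
    (BN.sum (st.1.map fun v => (v.getD l (⟨0⟩, ⟨0⟩)).1),
      BN.sum (st.1.map fun v => (v.getD l (⟨0⟩, ⟨0⟩)).2), BN.ofNat (d + 1) * st.2 - ⟨1⟩)

/-- The value of the cut at the vertex `i`. -/
def gam (d : ℕ) (st : Cst) (g : List Qn) (i : ℕ) : Qn :=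
  dot g (List.zipWith Qn.sub (vert st i) (cen d st))

/-- The index of the smallest value. -/
def amin (d : ℕ) (st : Cst) (g : List Qn) : ℕ :=
  ((List.range (d + 1)).find? fun i =>
    (List.range (d + 1)).all fun i' => Qn.le (gam d st g i) (gam d st g i')).getD 0

/-- The scale `8 (d+1)^3`. -/
def qsc (d : ℕ) : ℕ := 8 * (d + 1) ^ 3

/-- The stretching factor (times `qsc d`) of the vertex `i`. -/
def nfac0 (d : ℕ) (st : Cst) (g : List Qn) (i : ℕ) : BN :=
  Qn.fl (Qn.mul (qNat (qsc d)) (Qn.inv (Qn.add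
    (Qn.sub Qn.one (invNat (2 * (d + 1) ^ 2)))
    (Qn.mul (invNat (2 * (d + 1) ^ 2))
      (Qn.mul (Qn.sub (gam d st g i) (gam d st g (amin d st g)))
        (Qn.inv (Qn.neg (gam d st g (amin d st g))))))))) + ⟨1⟩

/-- The same, with a cap (which is never reached). -/
def nfac (d : ℕ) (st : Cst) (g : List Qn) (i : ℕ) : BN :=
  if nfac0 d st g i ≤ BN.ofNat (2 * qsc d) then nfac0 d st g i else BN.ofNat (2 * qsc d)

/-- One cutting plane step, with the cut `g`. -/
def cut (d : ℕ) (st : Cst) (g : List Qn) : Cst :=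
  ((List.range (d + 1)).map fun i => (List.range d).map fun l =>
    if i = amin d st g then
      (BN.ofNat (qsc d) * ((st.1.getD i []).getD l (⟨0⟩, ⟨0⟩)).1,
        BN.ofNat (qsc d) * ((st.1.getD i []).getD l (⟨0⟩, ⟨0⟩)).2)
    else
      (BN.ofNat (qsc d) * ((st.1.getD (amin d st g) []).getD l (⟨0⟩, ⟨0⟩)).1 +
        nfac d st g i * (((st.1.getD i []).getD l (⟨0⟩, ⟨0⟩)).1 +
          ((st.1.getD (amin d st g) []).getD l (⟨0⟩, ⟨0⟩)).2),
       BN.ofNat (qsc d) * ((st.1.getD (amin d st g) []).getD l (⟨0⟩, ⟨0⟩)).2 +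
        nfac d st g i * (((st.1.getD i []).getD l (⟨0⟩, ⟨0⟩)).2 +
          ((st.1.getD (amin d st g) []).getD l (⟨0⟩, ⟨0⟩)).1)),
    BN.ofNat (qsc d) * st.2)

/-- The first simplex: it contains all `x` with `|x l| ≤ 2^B`. -/
def cini (d B : ℕ) : Cst :=
  ((List.range (d + 1)).map fun i => (List.range d).map fun l =>
    if i = l + 1 then (BN.ofNat (2 * d) * BN.pow2 B, BN.pow2 B) else (⟨0⟩, BN.pow2 B), ⟨1⟩)

/-- The state after `k` steps. -/
def cst (D : Nin) (P K B k : ℕ) : Cst :=
  (fun st => cut (nrow D) st (gtil D (cen (nrow D) st) P K))^[k] (cini (nrow D) B)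

/-- The tilt: the first centroid which passes the test. -/
def tilt (D : Nin) (P K B T m : ℕ) : Option (List Qn) :=
  ((List.range T).map fun k => cen (nrow D) (cst D P K B k)).find? fun lam => pass D lam P K m

/-! ### The Fourier sum -/

/-- `ζ^k / k!`. -/
def cpf (z : Cn) (k : ℕ) : Cn :=
  Cn.prod ((List.range k).map fun i => Cn.mul z (Cn.ofQ (invNat (i + 1))))

/-- `∑_{k<K} ζ^k / k!`. -/
def cexpT (K : ℕ) (z : Cn) : Cn := Cn.sum ((List.range K).map fun k => cpf z k)

/-- The approximation of `QQ ζ` (for the real part `b`). -/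
def qtil (P K : ℕ) (b : Qn) (z : Cn) : Cn :=
  if Qn.le (qNat P) b = true then Cn.inv z
  else Cn.sum ((List.range K).map fun k => Cn.mul (cpf (Cn.neg z) k) (Cn.ofQ (invNat (k + 1))))

/-- The matrix `T` times the vector `w`. -/
def mulv (T : List (List Qn)) (w : List Qn) : List Qn := T.map fun t => dot t w

/-- The digit `i` of the grid point with the number `n0` (powers capped at `W`). -/
def dig (W M n0 i : ℕ) : ℕ :=
  (n0 / Pool.Agent.Helper78.DT.cpw W (2 * M + 1) i) % (2 * M + 1)

/-- The frequency vector `h k`, `h = 1 / H`. -/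
def tvec (d W M H n0 : ℕ) : List Qn :=
  (List.range d).map fun i => (BN.ofNat (dig W M n0 i), BN.ofNat M, BN.ofNat H - ⟨1⟩)

/-- The weight of one coordinate. -/
def wtl (M : ℕ) (a : ℕ) : Qn :=
  Qn.prod ((List.range a).map fun i => (BN.ofNat (M - i), ⟨0⟩, BN.ofNat (M + i)))

/-- The weight of the grid point. -/
def wgt (d W M n0 : ℕ) : Qn :=
  Qn.prod ((List.range d).map fun i => wtl M ((dig W M n0 i - M) + (M - dig W M n0 i)))

/-- The exponent `E`. -/
def eex (D : Nin) (lam : List Qn) : Qn :=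
  Qn.sub (Qn.sum ((cols D).map fun w =>
    if Qn.le (dot lam w) Qn.zero = true then Qn.zero else dot lam w)) (dot lam D.2.2)

/-- The phase `Ψ`. -/
def psi (D : Nin) (lam : List Qn) (T : List (List Qn)) (t : List Qn) : Qn :=
  Qn.sub (Qn.sum ((cols D).map fun w =>
    if Qn.le (dot lam w) Qn.zero = true then Qn.zero else dot t (mulv T w)))
    (dot t (mulv T D.2.2))

/-- The argument `ζ`. -/
def zet (lam : List Qn) (T : List (List Qn)) (t w : List Qn) : Cn :=
  if Qn.le (dot lam w) Qn.zero = true then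
    Cn.mk (Qn.abs (dot lam w)) (Qn.neg (dot t (mulv T w)))
  else Cn.mk (Qn.abs (dot lam w)) (dot t (mulv T w))

/-- The summand of the grid point `n0`. -/
def smd (D : Nin) (lam : List Qn) (T : List (List Qn)) (P K KE W M H n0 : ℕ) : Cn :=
  Cn.mul (Cn.ofQ (wgt (nrow D) W M n0))
    (Cn.mul (cexpT KE (Cn.mk (eex D lam) (psi D lam T (tvec (nrow D) W M H n0))))
      (Cn.prod ((cols D).map fun w =>
        qtil P K (Qn.abs (dot lam w)) (zet lam T (tvec (nrow D) W M H n0) w))))

/-- The approximation of `π` by `4 ∑_{k<n} (-1)^k/(2k+1)`. -/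
def piT (n : ℕ) : Qn :=
  Qn.sum ((List.range n).map fun k =>
    if k % 2 = 0 then (⟨4⟩, ⟨0⟩, BN.ofNat (2 * k)) else (⟨0⟩, ⟨4⟩, BN.ofNat (2 * k)))

/-- The approximation of the volume of the slice, for the tilt `lam`. -/
def vslice (D : Nin) (lam : List Qn) (P K KE W M H m np : ℕ) : Qn :=
  Qn.mul (Qn.mul (tdet (hh D lam) m)
      (Qn.prod (List.replicate (nrow D)
        (Qn.mul (invNat H) (Qn.inv (Qn.mul (qNat 2) (piT np)))))))
    (Cn.re (Cn.sum ((List.range (Pool.Agent.Helper78.DT.cpw W (2 * M + 1) (nrow D))).map fun n0 =>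
      smd D lam (tmat (hh D lam) m) P K KE W M H n0)))

/-! ### From the instance to the normalised instance -/

/-- A rational number of the input. -/
def ofRQ (q : RQ) : Qn :=
  if q.2.2 = ⟨0⟩ then Qn.zero
  else if q.1 then (⟨0⟩, q.2.1, q.2.2 - ⟨1⟩) else (q.2.1, ⟨0⟩, q.2.2 - ⟨1⟩)

/-- The widths of the box. -/
def wids (I : Inst) : List Qn := I.1.map fun z => Qn.sub (ofRQ z.2) (ofRQ z.1)

/-- The normalised coefficients of a row. -/
def rcoef (I : Inst) (r : List RQ × RQ) : List Qn :=
  (List.range I.1.length).map fun j =>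
    Qn.mul (ofRQ (r.1.getD j (false, ⟨0⟩, ⟨1⟩))) ((wids I).getD j Qn.zero)

/-- The normalised right hand side of a row. -/
def rrhs (I : Inst) (r : List RQ × RQ) : Qn :=
  Qn.sub (ofRQ r.2) (Qn.sum ((List.range I.1.length).map fun j =>
    Qn.mul (ofRQ (r.1.getD j (false, ⟨0⟩, ⟨1⟩)))
      (ofRQ (I.1.getD j ((false, ⟨0⟩, ⟨1⟩), (false, ⟨0⟩, ⟨1⟩))).1)))

/-- Not zero. -/
def qnz (x : Qn) : Bool := decide (¬ x.1 = x.2.1)

/-- The rows with a nonzero coefficient. -/
def rws (I : Inst) : List (List RQ × RQ) := I.2.filter fun r => (rcoef I r).any qnz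

/-- The normalised instance. -/
def nin (I : Inst) : Nin :=
  ((List.range I.1.length).map fun j => (rws I).map fun r => (rcoef I r).getD j Qn.zero,
    (rws I).map fun r => Qn.add (Qn.add (Qn.sum ((rcoef I r).map Qn.abs)) (Qn.abs (rrhs I r)))
      Qn.one,
    (rws I).map fun r => rrhs I r)

/-- Is the volume zero for a trivial reason? -/
def triv0 (I : Inst) : Bool :=
  (wids I).any (fun x => Qn.le x Qn.zero) ||
    I.2.any (fun r => !((rcoef I r).any qnz) && !(Qn.le (rrhs I r) Qn.zero))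

/-- From `Qn` to `RQ`. -/
def toRQ (x : Qn) : RQ := (decide (x.1 < x.2.1), x.1 - x.2.1 + (x.2.1 - x.1), x.2.2 + ⟨1⟩)

/-! ### The parameters and the algorithm -/

/-- The scale of the logarithms of all numbers which depend on the instance. -/
def pR (I : Inst) : ℕ := (isize I + 10) ^ 3

/-- The number `X = d (log₂ n + 2) q`, `n` the number of the columns. -/
def pX (I : Inst) (q : ℕ) : ℕ :=
  nrow (nin I) * (Nat.log 2 ((nin I).1.length + nrow (nin I)) + 2) * q

/-- The range of the frequencies. -/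
def pM (I : Inst) (q : ℕ) : ℕ := 10 ^ 30 * pX I q ^ 12

/-- The precision of the evaluation. -/
def pP (I : Inst) (q : ℕ) : ℕ := 100 * pX I q ^ 2 + (nin I).1.length + nrow (nin I)

/-- The tilt. -/
def tiltI (I : Inst) (m : ℕ) : Option (List Qn) :=
  tilt (nin I) (2000 * pR I ^ 4) (20000 * pR I ^ 4) (4 * pR I) (100 * pR I ^ 4) m

/-- The volume of the slice. -/
def vsliceI (I : Inst) (q W m : ℕ) (lam : List Qn) : Qn :=
  vslice (nin I) lam (pP I q) (40 * pM I q * pP I q)
    (pP I q + 50 * ((nin I).1.length + nrow (nin I)) * pM I q) W (pM I q) (200 * pX I q ^ 2) m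
    (64 * pX I q + 15)

/-- The cap for the powers. -/
def capW (κ : ℕ) (I : Inst) (q : ℕ) : ℕ := (isize I + q) ^ (114 * κ) + 1

/-- The algorithm. -/
def main (κ : ℕ) (z : Inst × ℕ) : RQ :=
  if triv0 z.1 then (false, ⟨0⟩, ⟨1⟩)
  else if nrow (nin z.1) = 0 then toRQ (Qn.prod (wids z.1))
  else (((tiltI z.1 (Nat.log 2 (capW κ z.1 z.2) / 2)).map fun lam =>
    toRQ (Qn.mul (Qn.mul (Qn.prod (wids z.1)) (Qn.prod (nin z.1).2.1))
      (vsliceI z.1 z.2 (capW κ z.1 z.2) (Nat.log 2 (capW κ z.1 z.2) / 2) lam)))).getD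
        (false, ⟨0⟩, ⟨1⟩)

end Pool.Agent.Helper92.FR
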