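import Pool.Agent.Helper92.FR.GoalsA
import Pool.Agent.Helper92.FR.Alg

/-!
# Few rows in a box: goals, part B (cutting planes, numerics, values of the algorithm)

All goals are independent: any goal may assume any other goal (also of part A) as a hypothesis.
-/

namespace Pool.Agent.Helper92.FR

open MeasureTheory Pool.Agent.Helper81.CC Pool.Agent.Bin Pool.Agent.Helper92.VP

noncomputable section

/-! ### Cutting planes with simplices -/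

/-- The centroid of a simplex. -/
def cent {d : ℕ} (V : Fin (d + 1) → Fin d → ℝ) : Fin d → ℝ :=
  fun l => (∑ i, V i l) / ((d : ℝ) + 1)

/-- `x` is a point of the simplex. -/
def InS {d : ℕ} (V : Fin (d + 1) → Fin d → ℝ) (x : Fin d → ℝ) : Prop :=
  ∃ b : Fin (d + 1) → ℝ, (∀ i, 0 ≤ b i) ∧ ∑ i, b i = 1 ∧ ∀ l, x l = ∑ i, b i * V i l

/-- The value of the cut `g` at the vertex `i`. -/
def gamR {d : ℕ} (V : Fin (d + 1) → Fin d → ℝ) (g : Fin d → ℝ) (i : Fin (d + 1)) : ℝ :=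
  ∑ l, g l * (V i l - cent V l)

/-- The number `1 - μ + μ w i`, `μ = 1/(2(d+1)^2)`, `w i = (γ i - γ i0)/(-γ i0)`. -/
def uu {d : ℕ} (V : Fin (d + 1) → Fin d → ℝ) (g : Fin d → ℝ) (i0 i : Fin (d + 1)) : ℝ :=
  1 - 1 / (2 * ((d : ℝ) + 1) ^ 2) +
    1 / (2 * ((d : ℝ) + 1) ^ 2) * ((gamR V g i - gamR V g i0) * (-gamR V g i0)⁻¹)

/-- One cutting plane step from `V` to `V'` with the cut `g`. -/
def CutR {d : ℕ} (V V' : Fin (d + 1) → Fin d → ℝ) (g : Fin d → ℝ) : Prop :=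
  ∃ (i0 : Fin (d + 1)) (n : Fin (d + 1) → ℝ), (∀ i, gamR V g i0 ≤ gamR V g i) ∧
    (∀ i, i ≠ i0 → 1 ≤ n i * uu V g i0 i ∧
      n i ≤ 1 / uu V g i0 i + 1 / (8 * ((d : ℝ) + 1) ^ 3)) ∧
    ∀ i l, V' i l = V i0 l + n i * (V i l - V i0 l)

/-- The vertices in homogeneous coordinates. -/
def hom {d : ℕ} (V : Fin (d + 1) → Fin d → ℝ) : Matrix (Fin (d + 1)) (Fin (d + 1)) ℝ :=
  fun i => Fin.cons 1 (V i)

/-- CUT. One step. Proof. Write `γ i = gamR V g i`; `∑ γ i = 0`, so `γ i0 ≤ 0`; if `γ i0 = 0` then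
all `γ i = 0` and the first part is void (`g·(x - c) = ∑ b i γ i`). Let `γ i0 < 0` and
`w i = (γ i - γ i0)/(-γ i0) ≥ 0`, so `w i0 = 0`, `∑ w i = d + 1`.
(1) For `x = ∑ b i V i` with `∑ b i γ i ≤ 0` one has `∑ b i w i ≤ 1` and `∑_{i≠i0} b i ≤ 1`, so
`∑_{i≠i0} b i u i ≤ 1`; put `b' i = b i / n i ≤ b i u i` for `i ≠ i0`, and
`x = V i0 + ∑_{i≠i0} b' i (V' i - V i0)`.
(2) `det (hom V') = (∏_{i≠i0} n i) det (hom V)` (row operations), and
`∏_{i≠i0} n i ≤ ∏ (1/u i) (1 + u i/Q)`, `Q = 8(d+1)^3`; `∑_{i≠i0} u i = d + μ ≤ d + 1`, so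
`∏ (1 + u i/Q) ≤ e^((d+1)/Q) = e^(1/(8(d+1)^2))`; with `log (1+x) ≥ x - x^2` for `|x| ≤ 1/2`,
`x = μ (w i - 1)`, `∑_{i≠i0} log (u i) ≥ μ - μ^2 ∑_{i≠i0} (w i - 1)^2 ≥ μ - μ^2 (d+1)^2 = μ/2`
(`∑ (w i - 1)^2 ≤ (∑ w i)^2 - 2 ∑ w i + d`), which is `1/(4(d+1)^2)`.
(3) `u i ≥ 7/8`, so `0 ≤ n i ≤ 8/7 + 1/64 ≤ 2` for `i ≠ i0`. -/
def CutStmt : Prop := ∀ (d : ℕ), 1 ≤ d → ∀ (V V' : Fin (d + 1) → Fin d → ℝ) (g : Fin d → ℝ),
  CutR V V' g →
  (∀ x, InS V x → ∑ l, g l * (x l - cent V l) < 0 → InS V' x) ∧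
  ((∃ i, gamR V g i < 0) →
    |(hom V').det| ≤ Real.exp (-(1 / (8 * ((d : ℝ) + 1) ^ 2))) * |(hom V).det|) ∧
  ∀ R : ℝ, (∀ i l, |V i l| ≤ R) → ∀ i l, |V' i l| ≤ 5 * R

/-- CPA. After `T` steps some point of a given small cube has been cut off. Proof (may assume CUT).
Let `p 0 = y`, `p (i+1) = y + ρ e_i` be `d + 1` corners of the cube. If the conclusion fails, then
at each step `k < T` all the corners that are in `V k` have `g·(p - c) < 0`, so by CUT they are in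
`V (k+1)`, and some `gamR < 0`; all of them are in the first simplex (`x l ≥ -B`,
`∑ (x l + B) ≤ 2 d B`). So the matrix `hom p` is the product of a matrix with nonnegative entries
and row sums one, whose determinant is at most one in absolute value (`|det| ≤ perm ≤` the product
of the row sums), and `hom (V T)`: `ρ^d ≤ |det (hom (V T))| ≤ (2dB)^d e^(-T/(8(d+1)^2))`, a
contradiction. The last part is CUT, part 3. -/
def CpaStmt : Prop := ∀ (d : ℕ), 1 ≤ d → ∀ (V : ℕ → Fin (d + 1) → Fin d → ℝ)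
  (g : ℕ → Fin d → ℝ) (B : ℝ) (T : ℕ), 0 < B →
  (∀ i l, V 0 i l = if i.val = l.val + 1 then (2 * (d : ℝ) - 1) * B else -B) →
  (∀ k < T, CutR (V k) (V (k + 1)) (g k)) →
  (∀ k ≤ T, ∀ i l, |V k i l| ≤ 5 ^ k * (2 * d * B)) ∧
  ∀ (ρ : ℝ) (y : Fin d → ℝ), 0 < ρ → (∀ l, -B ≤ y l ∧ y l + ρ ≤ B) →
  8 * ((d : ℝ) + 1) ^ 2 * (d * Real.log (2 * d * B / ρ)) < T →
  ∃ k < T, ∃ x, InS (V k) x ∧ (∀ l, y l ≤ x l ∧ x l ≤ y l + ρ) ∧
    0 ≤ ∑ l, g k l * (x l - cent (V k) l)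

/-- MIN. The minimiser of `FF`. Proof (may assume GRO). `FF 0 = 0`; where `FF ≤ 0` one has
`∑ |a_j| ≤ 2 (N+d)/σ log (2/σ)`, and `|a_(inr i)| = S i |lam i| ≥ |lam i|`. `FF` is continuous
(GRO, part 3), so it has a minimum on the compact box, and outside the box `FF > 0 = FF 0`. -/
def MinStmt : Prop := ∀ (N d : ℕ) (C : Fin N → Fin d → ℝ) (S e : Fin d → ℝ) (σ : ℝ)
  (z : Fin N ⊕ Fin d → ℝ), (∀ i, 1 ≤ S i) → 0 < σ → (∀ j, σ ≤ z j ∧ z j ≤ 1 - σ) →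
  (∀ i, ∑ j, col C S j i * z j = e i) →
  ∃ y : Fin d → ℝ, (∀ lam, FF C S e y ≤ FF C S e lam) ∧
    ∀ i, |y i| ≤ 2 * (N + d) / σ * Real.log (2 / σ)

/-- HPD. The surrogate Hessian is positive definite, and the entries of a normalising matrix are
bounded. Proof. `xᵀ HH x = ∑ r_j^2 (W_j·x)^2 ≥ ∑_i r_(inr i)^2 (S i)^2 (x i)^2`. For the second part
`4 ≥ h i = ∑_j r_j^2 ((T W_j) i)^2 ≥ r_(inr i')^2 (S i')^2 (T i i')^2` and
`r_(inr i') = 1/(1 + S i' |lam i'|)`. For the third part: `det T ^ 2 * det HH = ∏ h i ≠ 0`. -/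
def HpdStmt : Prop := ∀ (N d : ℕ) (C : Fin N → Fin d → ℝ) (S lam : Fin d → ℝ),
  (∀ i, 1 ≤ S i) → (HH C S lam).PosDef ∧ ∀ T, Nor C S lam T →
    (∀ i i', |T i i'| ≤ 2 * (1 + |lam i'|)) ∧ T.det ≠ 0

/-! ### Numerics -/

/-- EXS. The exponential series. Proof: `Complex.exp_bound'` (`|z|/(K+1) ≤ 1/2`), and
`|z|^K/K! ≤ (e |z|/K)^K ≤ (e/6)^K ≤ 2^(-K)` since `K^K/K! ≤ e^K` (`Real.pow_div_factorial_le_exp`).
The value of `cpf z k` is `z^k / k!`. -/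
def ExsStmt : Prop := ∀ (P K : ℕ) (z : Cn), 6 * ‖Cn.val z‖ + P + 1 ≤ K →
  ‖Cn.val (cexpT K z) - Complex.exp (Cn.val z)‖ ≤ 1 / 2 ^ P

/-- QTL. The approximation of `QQ`. Proof (may assume EXS, TRQ). Let `ζ = z.val`, `b = Re ζ`. If
`b ≥ P` then `QQ ζ = (1 - e^(-ζ))/ζ`, so the error is at most `e^(-b)/b ≤ 2 e^(-b)/(1+b)`, and
`1/(1+b) ≤ MM (-b)`. If `b < P` then the value is `∑_{k<K} (-ζ)^k/(k+1)!`; for `ζ ≠ 0` this is
`(∑_{m<K+1} (-ζ)^m/m! - 1)/(-ζ)` and `QQ ζ = (e^(-ζ) - 1)/(-ζ)`, so the error is at most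
`2 |ζ|^K/(K+1)! ≤ 2^(-2P-1)` (as in EXS), and `1/(1+b) ≥ 1/(1+P) ≥ 2^(-P)`; the case `ζ = 0` is
clear. -/
def QtlStmt : Prop := ∀ (P K : ℕ) (b : Qn) (z : Cn), 1 ≤ P → 0 ≤ Qn.val b →
  (Cn.val z).re = Qn.val b → (Qn.val b < P → 6 * ‖Cn.val z‖ + 2 * P + 2 ≤ K) →
  ‖Cn.val (qtil P K b z) - QQ (Cn.val z)‖ ≤ 2 / 2 ^ P * MM (-Qn.val b)

/-- MTL. The approximation of the mean. Proof (may assume TRQ). By TRQ `mm a = 1 - mm (-a)`, so it
is enough to approximate `mm (-b)`, `b = |a|`. For `b ≥ P`: `mm (-b) = 1/b - 1/(e^b - 1)`, and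
`1/(e^b - 1) ≤ 2 e^(-b)` (`b ≥ 1`). For `b < P`: `∫_0^1 x^j e^(-bx) dx = ∑_k (-b)^k/(k! (k+j+1))`
(the value of `pf x k` is `x^k/k!`; with the error `≤ ∑_{k≥K} b^k/k! ≤ 2 b^K/K! ≤ 2 (e/8)^K`,
`K ≥ 8P + 8`, so at most `2^(-8P-7)`), the quotient of the two has an error of at most
`2 δ/(m - δ)` with `m = MM (-b) ≥ 1/(1+P) ≥ 2^(-P)`, `δ = 2^(-8P-7)` and quotients in `[0,1]`. -/
def MtlStmt : Prop := ∀ (P K : ℕ) (a : Qn), 1 ≤ P → 8 * P + 8 ≤ K →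
  |Qn.val (mtil P K a) - mm (Qn.val a)| ≤ 2 / 2 ^ P

/-- PIL. Leibniz' series for `π`. Proof: alternating series, `Real.tendsto_sum_pi_div_four`,
`Antitone.alternating_series_le_tendsto`, `Antitone.tendsto_le_alternating_series`. -/
def PilStmt : Prop := ∀ n : ℕ, |Qn.val (piT n) - Real.pi| ≤ 4 / (2 * n + 1)

/-! ### Values -/

/-- The values of a list. -/
def lv (n : ℕ) (x : List Qn) : Fin n → ℝ := fun i => (x.getD i Qn.zero).val

/-- The values of a list of lists. -/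
def lm (n : ℕ) (A : List (List Qn)) : Matrix (Fin n) (Fin n) ℝ := fun i => lv n (A.getD i [])

/-- LDL. The elimination. Proof. Let `A` be the symmetric positive definite matrix. By induction on
`k ≤ n` the state after `k` steps is `(M A, M)` with `M` unit lower triangular, and the columns
`i < k` of `M A` are zero below the diagonal (each step multiplies from the left by a unit lower
triangular matrix; the pivots are positive: the leading principal minors of `M A` are those of `A`,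
or: `M A Mᵀ` is positive definite and its entry `(i,i)` is the pivot as soon as the row `i` of
`M A` is zero left of the diagonal). Steps `i ≥ n` do nothing. At the end `D = M A Mᵀ` is symmetric
and upper triangular, so diagonal, with the pivots `u i > 0` on the diagonal (`(M A Mᵀ) i i = (M A)
i i`). `scl u = ρ` has `1/2 ≤ ρ^2 u ≤ 4` and `ρ > 0`: for `u = p/(r+1)` with
`2^(a-1) ≤ p < 2^a`, `2^(b-1) ≤ r + 1 < 2^b`. And `det (diag ρ · M) = ∏ ρ i`. -/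
def LdlStmt : Prop := ∀ (n m : ℕ) (A : List (List Qn)), A.length = n →
  (∀ r ∈ A, r.length = n) → n ≤ m → (lm n A).PosDef →
  (tmat A m).length = n ∧ (∀ r ∈ tmat A m, r.length = n) ∧
  (∃ h : Fin n → ℝ, (∀ i, 1 / 2 ≤ h i ∧ h i ≤ 4) ∧
    lm n (tmat A m) * lm n A * (lm n (tmat A m)).transpose = Matrix.diagonal h) ∧
  (lm n (tmat A m)).det = Qn.val (tdet A m) ∧ 0 < Qn.val (tdet A m)

/-- A state of the cutting plane method in dimension `d`. -/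
def CWf (d : ℕ) (st : Cst) : Prop :=
  st.1.length = d + 1 ∧ (∀ v ∈ st.1, v.length = d) ∧ 1 ≤ st.2.val

/-- The vertices of a state. -/
def VV (d : ℕ) (st : Cst) : Fin (d + 1) → Fin d → ℝ := fun i => lv d (vert st i)

/-- CPV. The values of the cutting plane method. Proof: unfold; `amin` is an index with the smallest
`gam` (a nonempty finite list has a minimum); with `u = uu …` (`7/8 ≤ u`, since the sum of the
`gam` is zero, so the smallest is `≤ 0`) one has `nfac0 = ⌊Q/u⌋ + 1`, `Q = 8(d+1)^3 ≥ 64`, so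
`Q/u ≤ nfac0 ≤ Q/u + 1 ≤ 2 Q`, and the cap is not reached; `n i = nfac / Q`. (For `i = amin` any
`n i` will do, since the factor `V i l - V i0 l` is zero.) -/
def CpvStmt : Prop := ∀ (d : ℕ), 1 ≤ d →
  (∀ (st : Cst) (g : List Qn), CWf d st → g.length = d →
    CWf d (cut d st g) ∧ CutR (VV d st) (VV d (cut d st g)) (lv d g) ∧
    (cen d st).length = d ∧ lv d (cen d st) = cent (VV d st)) ∧
  ∀ B : ℕ, CWf d (cini d B) ∧
    ∀ i l, VV d (cini d B) i l = if i.val = l.val + 1 then (2 * (d : ℝ) - 1) * 2 ^ B else -2 ^ B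

/-- A well-formed normalised instance. -/
def Wf (D : Nin) : Prop := (∀ w ∈ D.1, w.length = nrow D) ∧ D.2.2.length = nrow D

/-- The coefficients. -/
def CR (D : Nin) : Fin D.1.length → Fin (nrow D) → ℝ := fun j => lv (nrow D) (D.1.getD j [])

/-- The numbers `S i`. -/
def SR (D : Nin) : Fin (nrow D) → ℝ := lv (nrow D) D.2.1

/-- The numbers `e i`. -/
def eR (D : Nin) : Fin (nrow D) → ℝ := lv (nrow D) D.2.2

/-- The columns as lists. -/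
def colL (D : Nin) : Fin D.1.length ⊕ Fin (nrow D) → List Qn
  | .inl j => D.1.getD j []
  | .inr i => (slackCols D.2.1).getD i []

/-- VAL0. Sums and products over the columns, scalar products. Proof: unfold, `List.prod_ofFn`,
`List.sum_ofFn`, `Fintype.prod_sum_type`. -/
def Val0Stmt : Prop := (∀ (n : ℕ) (x y : List Qn), x.length = n → y.length = n →
    Qn.val (dot x y) = ∑ i, lv n x i * lv n y i) ∧
  ∀ D : Nin, (∀ φ : List Qn → ℂ, ((cols D).map φ).prod = ∏ j, φ (colL D j)) ∧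
    (∀ φ : List Qn → ℝ, ((cols D).map φ).sum = ∑ j, φ (colL D j)) ∧
    (Wf D → ∀ j, (colL D j).length = nrow D ∧ lv (nrow D) (colL D j) = col (CR D) (SR D) j)

/-- VAL1. The values of `hh`, `gtil` and `eex`. Proof (may assume VAL0, MTL): the value of
`dot lam (colL D j)` is `aa (CR D) (SR D) (lv _ lam) j`. -/
def Val1Stmt : Prop := ∀ (D : Nin) (lam : List Qn), Wf D → lam.length = nrow D →
  (hh D lam).length = nrow D ∧ (∀ r ∈ hh D lam, r.length = nrow D) ∧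
  lm (nrow D) (hh D lam) = HH (CR D) (SR D) (lv (nrow D) lam) ∧
  Qn.val (eex D lam) = Eex (CR D) (SR D) (eR D) (lv (nrow D) lam) ∧
  (∀ P K, (gtil D lam P K).length = nrow D) ∧
  ∀ P K : ℕ, 1 ≤ P → 8 * P + 8 ≤ K → ∀ i,
    |lv (nrow D) (gtil D lam P K) i - gg (CR D) (SR D) (eR D) (lv (nrow D) lam) i| ≤
      (∑ j, |col (CR D) (SR D) j i|) * (2 / 2 ^ P)

/-- VAL2. The values of `psi`, `zet` and `wgt`, and the enumeration of the grid. Proof (may assume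
VAL0): unfold; `mulv T w` has the values `∑ i', T i i' * w i'`. The weight of `k` is
`∏_{i<|k|} (M - i)/(M + i + 1)`, and `|a - M| = (a - M) + (M - a)` with truncated subtraction. For
the last part: `n0 ↦ (dig n0 i - M)_i` is a bijection from the numbers `n0 < (2M+1)^d` to `grid M`
(mixed radix; `finFunctionFinEquiv` may help), and `cpw W (2M+1) i = (2M+1)^i` for `i ≤ d` as
`(2M+1)^d ≤ W` (`Pool.Agent.Helper3.DT.cpw_eq`). -/
def Val2Stmt : Prop := ∀ (D : Nin) (lam : List Qn) (T : List (List Qn)) (M H W : ℕ), Wf D →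
  lam.length = nrow D → T.length = nrow D → (∀ r ∈ T, r.length = nrow D) → 1 ≤ M → 1 ≤ H →
  (2 * M + 1) ^ nrow D ≤ W →
  Pool.Agent.Helper78.DT.cpw W (2 * M + 1) (nrow D) = (2 * M + 1) ^ nrow D ∧
  (∀ φ : (Fin (nrow D) → ℤ) → ℂ,
    ((List.range ((2 * M + 1) ^ nrow D)).map fun n0 =>
      φ fun i => (dig W M n0 i : ℤ) - M).sum = ∑ k ∈ grid M, φ k) ∧
  ∀ n0 : ℕ, let k : Fin (nrow D) → ℤ := fun i => (dig W M n0 i : ℤ) - M
    k ∈ grid M ∧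
    Qn.val (wgt (nrow D) W M n0) = ∏ i, wt M (k i) ∧
    Qn.val (psi D lam T (tvec (nrow D) W M H n0)) =
      Psi (CR D) (SR D) (eR D) (lv (nrow D) lam) (lm (nrow D) T) (1 / H) k ∧
    ∀ j, Cn.val (zet lam T (tvec (nrow D) W M H n0) (colL D j)) =
      zeta (CR D) (SR D) (lv (nrow D) lam) (lm (nrow D) T) (1 / H) k j

/-- PAS. The test. Proof (may assume VAL0, VAL1, LDL, HPD). By VAL1, HPD and LDL the matrix `T` is
normalising. The value tested is `∑ i (T g̃) i ^ 2` (`g̃` the values of `gtil`), and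
`|T (g̃ - g)| i ≤ d · 2(1 + 2^R) · 2^R · 2/2^P ≤ 2^(3R+4-P) ≤ 2^(-96-2R)`, while
`(a + b)^2 ≤ 2a^2 + 2b^2` and `d · 2 · 2^(-192-4R) ≤ 10^(-16)`. -/
def PasStmt : Prop := ∀ (D : Nin) (lam : List Qn) (P K m R : ℕ), Wf D → lam.length = nrow D →
  (∀ i, 1 ≤ SR D i) → nrow D ≤ m → 8 * P + 8 ≤ K → nrow D ≤ 2 ^ R → 5 * R + 100 ≤ P →
  (∀ i, |lv (nrow D) lam i| ≤ 2 ^ R) → (∀ i, ∑ j, |col (CR D) (SR D) j i| ≤ 2 ^ R) →
  Nor (CR D) (SR D) (lv (nrow D) lam) (lm (nrow D) (tmat (hh D lam) m)) ∧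
  (tmat (hh D lam) m).length = nrow D ∧ (∀ r ∈ tmat (hh D lam) m, r.length = nrow D) ∧
  (lm (nrow D) (tmat (hh D lam) m)).det = Qn.val (tdet (hh D lam) m) ∧
  0 < Qn.val (tdet (hh D lam) m) ∧
  (pass D lam P K m = true → ∑ i, ((lm (nrow D) (tmat (hh D lam) m)).mulVec
    (gg (CR D) (SR D) (eR D) (lv (nrow D) lam)) i) ^ 2 ≤ 1 / 10 ^ 13) ∧
  (∑ i, ((lm (nrow D) (tmat (hh D lam) m)).mulVec
    (gg (CR D) (SR D) (eR D) (lv (nrow D) lam)) i) ^ 2 ≤ 1 / 10 ^ 15 →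
    pass D lam P K m = true)

/-- TIL. The tilt. Proof (may assume CPA, CPV, CUT, VAL1, PAS, MIN, GRO, DEC). The states `cst … k`
(`B = 4R`, `T = 100 R^4`, precision `P = 20 T`) give a sequence as in CPA with the cuts
`g̃_k` = the values of `gtil` at the centroid `c_k`; all vertices and centroids are bounded by
`5^k 2 d 2^B ≤ 2^(3T + 6R)`. First part: `lam = c_k` for some `k < T` (`List.find?_some`, …), and
PAS with `3T + 6R` for `R` (`5(3T + 6R) + 100 ≤ 20 T`).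
Second part: let `y` be a minimiser of `FF`, `|y i| ≤ 2n/σ log (2/σ) ≤ 2 R 2^R (R + 1) ≤ 2^(4R) - 1`,
`ρ = 2^(-2R-64)`. In CPA the logarithm is at most `7R + 66`, so `T = 100 R^4` is large enough
(`R ≥ 10`, `1 ≤ d ≤ R`); it gives `k < T` and `x` in the cube and in the simplex `k` with
`g̃_k·(x - c_k) ≥ 0`. So `FF c_k ≤ FF x - g·(x - c_k) ≤ FF x + |g̃ - g|·|x - c_k|` (GRO, part 2) with
`|g̃ - g| ≤ 2^(R+1-P)` in each coordinate (VAL1) and `|x l - c_k l| ≤ 2^(3T+6R+1)`, and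
`FF x ≤ FF y + d ρ 2^R` (GRO, part 3). Altogether `FF c_k ≤ FF y + 10^(-17)`, so by DEC (and PAS
for `Nor`) `∑ (T g)^2 ≤ 72·10^(-17) ≤ 10^(-15)` and the test is passed. -/
def TilStmt : Prop := ∀ (D : Nin) (R m : ℕ), Wf D → 1 ≤ nrow D → 10 ≤ R →
  D.1.length + nrow D ≤ R → (∀ i, 1 ≤ SR D i) → nrow D ≤ m →
  (∀ i, (∑ j, |col (CR D) (SR D) j i|) + |eR D i| ≤ 2 ^ R) →
  (∀ lam, tilt D (2000 * R ^ 4) (20000 * R ^ 4) (4 * R) (100 * R ^ 4) m = some lam →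
    lam.length = nrow D ∧
    Nor (CR D) (SR D) (lv (nrow D) lam) (lm (nrow D) (tmat (hh D lam) m)) ∧
    (tmat (hh D lam) m).length = nrow D ∧ (∀ r ∈ tmat (hh D lam) m, r.length = nrow D) ∧
    (lm (nrow D) (tmat (hh D lam) m)).det = Qn.val (tdet (hh D lam) m) ∧
    0 < Qn.val (tdet (hh D lam) m) ∧
    ∑ i, ((lm (nrow D) (tmat (hh D lam) m)).mulVec
      (gg (CR D) (SR D) (eR D) (lv (nrow D) lam)) i) ^ 2 ≤ 1 / 10 ^ 13) ∧
  ((∃ z : Fin D.1.length ⊕ Fin (nrow D) → ℝ,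
    (∀ j, 1 / 2 ^ R ≤ z j ∧ z j ≤ 1 - 1 / 2 ^ R) ∧
    ∀ i, ∑ j, col (CR D) (SR D) j i * z j = eR D i) →
    ∃ lam, tilt D (2000 * R ^ 4) (20000 * R ^ 4) (4 * R) (100 * R ^ 4) m = some lam)

/-- EVL. The evaluation. Proof (may assume VAL0, VAL1, VAL2, EXS, QTL, PIL, TRQ, EV1, BND). Let
`n = N + d`, `h = 1/H = 1/(200 X^2)`, `T` the values of `tmat`; `k ∈ grid M`. `X ≥ 2d`, `X ≥ 2q`,
`X ≥ 2`, so `d h M ≤ M`.
(1) `|E| ≤ 2n`, `|Ψ| ≤ (4n+1) d h M ≤ (4n+1) M` (BND), so by EXS (with `P + 3n` for `P`,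
`6 (2n + (4n+1) M) + P + 3n + 1 ≤ P + 50 n M`) the error of the factor `cexpT` is at most
`2^(-P-3n) ≤ 2^(-P) e^(-2n) ≤ 2^(-P) e^E = 2^(-P) |e^(E+iΨ)|`.
(2) If `|a_j| < P` then `|ζ| ≤ P + 2 d h M (1+P) ≤ 5 M P` (BND), so `6|ζ| + 2P + 2 ≤ 40 M P`, and
by QTL each factor `qtil` has an error of at most `(2/2^P) MM (-|a_j|)`; `|QQ ζ_j| ≤ MM (-|a_j|)` by
TRQ.
(3) So the error of the product of the `n + 1` factors is at most
`e^E ∏ MM (-|a_j|) ((1 + 2/2^P)^(n+1) - 1) ≤ e^E ∏ MM (-|a_j|) · 4 (n+1)/2^P`; `0 ≤ wt ≤ 1`; there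
are `(2M+1)^d` summands; `h/(2π) ≤ 1`. By EV1 (first part) the total error of
`|det T| (h/2π)^d Re ∑` is at most `ff · (2M+1)^d 4 (n+1)/(2^P plow d) ≤ ff/(16 q)`:
`2^P ≥ 64 q (n+1) (2M+1)^d (400 d)^d · 2·10^14` since `P ≥ 100 X^2 + n`
(`d ≤ X/2`, `log₂ (2M+1) ≤ 102 + 12 log₂ X`).
(4) `π̃ = piT (64X+15)` has `|π̃ - π| ≤ 2/(64 X + 15)`, so `|(π/π̃)^d - 1| ≤ 2d/(64X+15) ≤ 1/(32 q)`
(as `d q ≤ X/2`; with `π̃ ≥ 3`).
(5) With EV1 (second part): `(1/8 + 1/16) (1 + 1/32) + 1/32 ≤ 1/4`. -/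
def EvlStmt : Prop := ∀ (D : Nin) (lam : List Qn) (q X P K KE W m : ℕ), Wf D → 1 ≤ nrow D →
  lam.length = nrow D → 1 ≤ q →
  X = nrow D * (Nat.log 2 (D.1.length + nrow D) + 2) * q →
  P = 100 * X ^ 2 + D.1.length + nrow D → K = 40 * (10 ^ 30 * X ^ 12) * P →
  KE = P + 50 * (D.1.length + nrow D) * (10 ^ 30 * X ^ 12) →
  (2 * (10 ^ 30 * X ^ 12) + 1) ^ nrow D ≤ W →
  (∀ i, 1 ≤ SR D i) →
  Nor (CR D) (SR D) (lv (nrow D) lam) (lm (nrow D) (tmat (hh D lam) m)) →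
  (tmat (hh D lam) m).length = nrow D → (∀ r ∈ tmat (hh D lam) m, r.length = nrow D) →
  (lm (nrow D) (tmat (hh D lam) m)).det = Qn.val (tdet (hh D lam) m) →
  0 < Qn.val (tdet (hh D lam) m) →
  ∑ i, ((lm (nrow D) (tmat (hh D lam) m)).mulVec
      (gg (CR D) (SR D) (eR D) (lv (nrow D) lam)) i) ^ 2 ≤ 1 / 10 ^ 13 →
  0 < ff (CR D) (SR D) (eR D) ∧
  |Qn.val (vslice D lam P K KE W (10 ^ 30 * X ^ 12) (200 * X ^ 2) m (64 * X + 15)) -
    ff (CR D) (SR D) (eR D)| ≤ ff (CR D) (SR D) (eR D) / (4 * q)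

/-! ### From the instance to the normalised instance -/

/-- NIN. The normalised instance. Proof. `RQ.val = Qn.val ∘ ofRQ` (also for the denominator `0`).
If `triv0` is false then all widths are positive, and the rows whose normalised coefficients are all
zero (these are the rows with all coefficients zero) are satisfied by all `x`; the others are the
rows `rws`. The substitution `x j = lo j + width j * z j` maps the cube `[0,1]^N` to the box and has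
the determinant `∏ width`; the upper bound `∑ C x - e ≤ S` in `ff` is automatic. If `triv0` is true
then a width is `≤ 0` (the box is empty or a null set) or some row reads `0 ≥ b > 0` (if a
normalised coefficient is zero and the width is positive, then the coefficient is zero), so the
polytope is empty. For the third part: `Dn` is the product of all nonzero denominators of the
instance, `Dn ≤ 2^isize`; `|value| ≤ 2^bits` for each number of the instance, `N + d ≤ isize`;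
`|C j i| ≤ 2^L · 2 · 2^L`, `|e i| ≤ 2^L + N 2^(2L)`. -/
def NinStmt : Prop := ∀ I : Inst, (triv0 I = true → vol (poly I) = 0) ∧
  (triv0 I = false →
    Wf (nin I) ∧ (nin I).1.length = dim I ∧ nrow (nin I) ≤ I.2.length ∧
    (nin I).1.length + nrow (nin I) ≤ isize I ∧
    (∀ i, SR (nin I) i = (∑ j, |CR (nin I) j i|) + |eR (nin I) i| + 1) ∧
    0 < Qn.val (Qn.prod (wids I)) ∧
    (nrow (nin I) = 0 → vol (poly I) = Qn.val (Qn.prod (wids I))) ∧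
    (1 ≤ nrow (nin I) → vol (poly I) = Qn.val (Qn.prod (wids I)) *
      Qn.val (Qn.prod (nin I).2.1) * ff (CR (nin I)) (SR (nin I)) (eR (nin I))) ∧
    (∀ i, ∃ j, CR (nin I) j i ≠ 0) ∧
    (∀ i j, |CR (nin I) j i| ≤ 2 ^ (3 * isize I)) ∧ (∀ i, |eR (nin I) i| ≤ 2 ^ (3 * isize I)) ∧
    ∃ Dn : ℕ, 1 ≤ Dn ∧ Dn ≤ 2 ^ (3 * isize I) ∧
      (∀ i j, ∃ z : ℤ, (Dn : ℝ) * CR (nin I) j i = z) ∧ ∀ i, ∃ z : ℤ, (Dn : ℝ) * eR (nin I) i = z)

/-- MRG. The margin. Proof (may assume INT). If `ff (CR D) (SR D) (eR D) > 0` then the set of the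
`x ∈ [0,1]^N` with `C x ≥ e` has positive volume, INT gives `x`; put `z (inl j) = x j`,
`z (inr i) = ((C x) i - e i)/S i`. With `σ = sig N d β`: `z (inr i) ≥ σ/S i`,
`1 - z (inr i) ≥ 1/S i` since `(C x) i - e i ≤ S i - 1`; `S i ≤ (N+1) 2^β + 1`, and
`σ/S i ≥ 2^(-(L+10)^3)` with `β = 3L`, `N + d ≤ L` (`2N + d ≤ 2^(L+1)`; the exponents add up to at
most `N^2 + 2βN + β + (L+1) + (L+β+2) ≤ 7L^2 + 8L + 3`). For the second part
`(∑ |col|) + |e i| ≤ 2 S i`. -/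
def MrgStmt : Prop := ∀ (D : Nin) (L Dn : ℕ), Wf D → 1 ≤ nrow D → 1 ≤ D.1.length →
  D.1.length + nrow D ≤ L → (∀ i, SR D i = (∑ j, |CR D j i|) + |eR D i| + 1) →
  (∀ i, ∃ j, CR D j i ≠ 0) → (∀ i j, |CR D j i| ≤ 2 ^ (3 * L)) →
  (∀ i, |eR D i| ≤ 2 ^ (3 * L)) → 1 ≤ Dn → Dn ≤ 2 ^ (3 * L) →
  (∀ i j, ∃ z : ℤ, (Dn : ℝ) * CR D j i = z) → (∀ i, ∃ z : ℤ, (Dn : ℝ) * eR D i = z) →
  (0 < ff (CR D) (SR D) (eR D) → ∃ z : Fin D.1.length ⊕ Fin (nrow D) → ℝ,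
    (∀ j, 1 / 2 ^ ((L + 10) ^ 3) ≤ z j ∧ z j ≤ 1 - 1 / 2 ^ ((L + 10) ^ 3)) ∧
    ∀ i, ∑ j, col (CR D) (SR D) j i * z j = eR D i) ∧
  ∀ i, (∑ j, |col (CR D) (SR D) j i|) + |eR D i| ≤ 2 ^ ((L + 10) ^ 3)

/-- TRR. From `Qn` to `RQ`. Proof: unfold. -/
def TrrStmt : Prop := ∀ x : Qn, RQ.val (toRQ x) = Qn.val x

/-- PAR. The parameters. Proof. `X ≤ X0 := d0 (log₂ L + 2) q`, `d ≤ d0`, so `X^d ≤ (L+q)^κ`, and
`2 ≤ X`, so `2^d ≤ X^d`; `2M + 1 ≤ 2^102 X^12`. `4^d ≤ W` gives `2 d ≤ log₂ W`. -/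
def ParStmt : Prop := ∀ (κ d0 d n L q X W : ℕ), 1 ≤ d → d ≤ d0 → n ≤ L → 1 ≤ q →
  (d0 * (Nat.log 2 L + 2) * q) ^ d0 ≤ (L + q) ^ κ → X = d * (Nat.log 2 n + 2) * q →
  W = (L + q) ^ (114 * κ) + 1 →
  (2 * (10 ^ 30 * X ^ 12) + 1) ^ d ≤ W ∧ d ≤ Nat.log 2 W / 2

end

end Pool.Agent.Helper92.FR
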