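import Pool.Agent.Helper92.VP.Defs

/-!
# Few dense rows: the statement

`RQ` (rational numbers in binary), `RQ.bits`, `coef` and `vol` are in `Pool.Agent.Helper92.VP.Defs`.
In `encOf` natural numbers of the type `ℕ` are coded in unary.
-/

namespace Pool.Agent.Helper92.FR

open Pool.Agent.Helper81.CC Pool.Agent.Bin Pool.Agent.Helper92.VP

/-- A system of linear inequalities: the number `n` of the variables, and a list of rows. A row
`(a, b)` consists of the list `a` of the coefficients and the right hand side `b` and stands for the
inequality `∑ j, a j * x j ≥ b`. -/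
abbrev Sys := ℕ × List (List RQ × RQ)

/-- The polyhedron `{x : A x ≥ b}`. -/
def sol (S : Sys) : Set (Fin S.1 → ℝ) :=
  {x | ∀ r ∈ S.2, r.2.val ≤ ∑ j : Fin S.1, coef r j * x j}

/-- The size: the number of the variables plus the total number of the bits of all rational numbers
of the system. -/
def ssize (S : Sys) : ℕ := S.1 + (S.2.map fun r => (r.1.map RQ.bits).sum + r.2.bits).sum

/-- The number of the nonzero coefficients of a row. -/
noncomputable def nnz (n : ℕ) (r : List RQ × RQ) : ℕ := {j : Fin n | coef r j ≠ 0}.ncard

/-- The number of the dense rows: the rows with at least two nonzero coefficients (all the others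
are bounds of a single variable or do not involve any variable). -/
noncomputable def dense (S : Sys) : ℕ := (S.2.filter fun r => decide (2 ≤ nnz S.1 r)).length

/-- A deterministic polynomial-time machine computes, for each system `S = (A, b)` with a bounded
polyhedron and each `q ≥ 1` (in unary), a rational number, which is the volume up to a relative
error of at most `1 / q` if `(d (log₂ L + 2) q) ^ d ≤ (L + q) ^ κ`, where `d` is the number of the
dense rows and `L` is the size of `S`. -/
def FewDense (κ : ℕ) : Prop :=
  ∃ f : Sys × ℕ → RQ, PolyTimeComputable (encOf (Sys × ℕ)) (encOf RQ) f ∧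
    ∀ (S : Sys) (q : ℕ), Bornology.IsBounded (sol S) → 1 ≤ q →
      (dense S * (Nat.log 2 (ssize S) + 2) * q) ^ dense S ≤ (ssize S + q) ^ κ →
      |(f (S, q)).val - vol (sol S)| ≤ vol (sol S) / q

end Pool.Agent.Helper92.FR
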