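import Pool.Agent.Helper92.FR.GoalsS
import Pool.Agent.Helper92.VP.Fin

/-!
# Few dense rows: the assembly
-/

namespace Pool.Agent.Helper92.FR

open Pool.Agent.Helper81.CC Pool.Agent.Bin Pool.Agent.Helper92.VP

theorem ari (d L L' q κ : ℕ) (hd : 1 ≤ d) (hq : 1 ≤ q) (hLL : L ≤ L')
    (hL' : L' ≤ 50 * (L + 1) ^ 3)
    (h : (d * (Nat.log 2 L + 2) * q) ^ d ≤ (L + q) ^ κ) :
    (d * (Nat.log 2 L' + 2) * q) ^ d ≤ (L' + q) ^ (4 * κ) := by
  set X := d * (Nat.log 2 L + 2) * q with hX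
  have hX2 : 2 ≤ X := by
    have h1 : 1 * 2 ≤ d * (Nat.log 2 L + 2) := Nat.mul_le_mul hd (by omega)
    calc 2 = 1 * 2 * 1 := by norm_num
      _ ≤ X := Nat.mul_le_mul h1 hq
  have hlog : Nat.log 2 L' + 2 ≤ 8 * (Nat.log 2 L + 2) := by
    have h1 : L + 1 ≤ 2 ^ (Nat.log 2 L + 1) := Nat.lt_pow_succ_log_self (by norm_num) L
    have h2 : L' < 2 ^ (3 * (Nat.log 2 L + 1) + 6) := by
      calc L' ≤ 50 * (L + 1) ^ 3 := hL'
        _ ≤ 50 * (2 ^ (Nat.log 2 L + 1)) ^ 3 := Nat.mul_le_mul_left _ (Nat.pow_le_pow_left h1 3)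
        _ < 64 * (2 ^ (Nat.log 2 L + 1)) ^ 3 := by
            apply Nat.mul_lt_mul_of_pos_right (by norm_num) (by positivity)
        _ = 2 ^ (3 * (Nat.log 2 L + 1) + 6) := by
            rw [← pow_mul, pow_add, mul_comm (Nat.log 2 L + 1) 3]
            norm_num [mul_comm]
    have h3 : Nat.log 2 L' ≤ 3 * (Nat.log 2 L + 1) + 6 := by
      rcases Nat.eq_zero_or_pos L' with h0 | h0
      · rw [h0]; simp
      · exact (Nat.log_lt_of_lt_pow h0.ne' h2).le
    omega
  have h8 : 8 ^ d ≤ (X ^ d) ^ 3 := by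
    calc 8 ^ d = (2 ^ d) ^ 3 := by
          rw [← pow_mul, mul_comm, pow_mul]
          norm_num
      _ ≤ (X ^ d) ^ 3 := Nat.pow_le_pow_left (Nat.pow_le_pow_left hX2 d) 3
  calc (d * (Nat.log 2 L' + 2) * q) ^ d ≤ (8 * X) ^ d := by
        refine Nat.pow_le_pow_left ?_ d
        calc d * (Nat.log 2 L' + 2) * q ≤ d * (8 * (Nat.log 2 L + 2)) * q :=
              Nat.mul_le_mul_right _ (Nat.mul_le_mul_left _ hlog)
          _ = 8 * X := by rw [hX]; ring
    _ = 8 ^ d * X ^ d := mul_pow _ _ _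
    _ ≤ (X ^ d) ^ 3 * X ^ d := Nat.mul_le_mul_right _ h8
    _ = (X ^ d) ^ 4 := by ring
    _ ≤ ((L + q) ^ κ) ^ 4 := Nat.pow_le_pow_left h 4
    _ = (L + q) ^ (4 * κ) := by rw [← pow_mul, mul_comm]
    _ ≤ (L' + q) ^ (4 * κ) := Nat.pow_le_pow_left (by omega) _

theorem fewDense_of (hR : ∀ κ, FewRows κ) (hmkv : MkvStmt) (hmkl : MklStmt) (hmkp : MkpStmt)
    (κ : ℕ) : FewDense κ := by
  obtain ⟨f, hf, hf2⟩ := hR (4 * κ)
  have hf' : PolyTime f := Pool.Agent.Helper78.LM.PT_of_comp hf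
  obtain ⟨hp1, hp2⟩ := hmkp
  refine ⟨fun z => if bad0 z.1 then (false, ⟨0⟩, ⟨1⟩) else f (mkI z.1, z.2), ?_, ?_⟩
  · have h1 : PolyTime (fun z : Sys × ℕ => bad0 z.1) := PolyTime.comp (g := bad0) hp2 (by fun_prop)
    have h2 : PolyTime (fun z : Sys × ℕ => mkI z.1) := PolyTime.comp (g := mkI) hp1 (by fun_prop)
    have h3 : PolyTime (fun z : Sys × ℕ => f (mkI z.1, z.2)) :=
      PolyTime.comp (g := f) hf' (by fun_prop)
    have h4 : PolyTime (fun z : Sys × ℕ => if bad0 z.1 then ((false, ⟨0⟩, ⟨1⟩) : RQ)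
        else f (mkI z.1, z.2)) := by fun_prop
    exact h4.computable
  · intro S q hb hq hk
    obtain ⟨g1, g2, g3⟩ := hmkv S hb
    obtain ⟨l1, l2⟩ := hmkl S
    by_cases h0 : bad0 S = true
    · simp only [h0, if_true, g1 h0]
      simp [RQ.val]
    · have h0' : bad0 S = false := by simpa using h0
      simp only [h0', Bool.false_eq_true, if_false]
      rw [← g2 h0']
      refine hf2 (mkI S) q hq ?_
      rw [g3]
      rcases Nat.eq_zero_or_pos (dense S) with hd | hd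
      · rw [hd, pow_zero]
        exact Nat.one_le_pow _ _ (by omega)
      · refine ari (dense S) (ssize S) (isize (mkI S)) q κ hd hq (l2 ?_) l1 hk
        by_contra hn
        have hn0 : S.1 = 0 := by omega
        have hz : ∀ r : List RQ × RQ, nnz S.1 r = 0 := by
          intro r
          unfold nnz
          have : {j : Fin S.1 | coef r j ≠ 0} = ∅ := by
            ext j
            exact absurd j.isLt (by omega)
          rw [this, Set.ncard_empty]
        have : dense S = 0 := by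
          unfold dense
          simp [hz]
        omega

end Pool.Agent.Helper92.FR
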