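import Pool.Agent.Helper92.FR.AllB
import Pool.Agent.Helper92.FR.FinS
import Pool.Agent.Helper82.FR.BIG
import Pool.Agent.Helper38.FR.MKV
import Pool.Agent.Helper93.FR.MKL
import Pool.Agent.Helper87.FR.MKP

/-!
# Few dense rows: the theorem for systems of inequalities
-/

namespace Pool.Agent.Helper92.FR

/-- The volume of a bounded polyhedron with few dense rows can be approximated with relative error
`1/q` in deterministic polynomial time. -/
theorem fewDense (κ : ℕ) : FewDense κ :=
  fewDense_of fewRows (Pool.Agent.Helper38.FR.mkv Pool.Agent.Helper82.FR.big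
    Pool.Agent.Helper34.FR.trr) Pool.Agent.Helper93.FR.mkl Pool.Agent.Helper87.FR.mkp κ

end Pool.Agent.Helper92.FR
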