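import Pool.Agent.Helper92.FR.Fin
import Pool.Agent.Helper1.FR.EV1
import Pool.Agent.Helper1.FR.EXS
import Pool.Agent.Helper1.FR.LIP
import Pool.Agent.Helper1.FR.TAIL
import Pool.Agent.Helper12.FR.PTP
import Pool.Agent.Helper13.FR.NIN
import Pool.Agent.Helper13.FR.SUP
import Pool.Agent.Helper19.FR.VAL1
import Pool.Agent.Helper2.FR.PTV
import Pool.Agent.Helper2.FR.TRG
import Pool.Agent.Helper22.FR.PTE
import Pool.Agent.Helper24.FR.VAL0
import Pool.Agent.Helper3.FR.PAR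
import Pool.Agent.Helper30.FR.PAS
import Pool.Agent.Helper32.FR.MOM
import Pool.Agent.Helper34.FR.LCF
import Pool.Agent.Helper34.FR.TRR
import Pool.Agent.Helper37.FR.MTL
import Pool.Agent.Helper38.FR.CHF
import Pool.Agent.Helper38.FR.PTF
import Pool.Agent.Helper39.FR.VAL2
import Pool.Agent.Helper40.FR.PTI
import Pool.Agent.Helper41.FR.CPA
import Pool.Agent.Helper42.FR.EVL
import Pool.Agent.Helper44.FR.BND
import Pool.Agent.Helper49.FR.TR0
import Pool.Agent.Helper5.FR.TRD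
import Pool.Agent.Helper5.FR.TRF
import Pool.Agent.Helper50.FR.ANA
import Pool.Agent.Helper51.FR.HPD
import Pool.Agent.Helper52.FR.DEP
import Pool.Agent.Helper53.FR.TRV
import Pool.Agent.Helper60.FR.CPV
import Pool.Agent.Helper61.FR.CUT
import Pool.Agent.Helper61.FR.MIN
import Pool.Agent.Helper62.FR.PTN
import Pool.Agent.Helper67.FR.DENS
import Pool.Agent.Helper67.FR.LDL
import Pool.Agent.Helper7.FR.INT
import Pool.Agent.Helper73.FR.PTC
import Pool.Agent.Helper77.FR.LOW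
import Pool.Agent.Helper77.FR.SPP
import Pool.Agent.Helper77.FR.TIL
import Pool.Agent.Helper8.FR.DEC
import Pool.Agent.Helper82.FR.GRO
import Pool.Agent.Helper84.FR.LCP
import Pool.Agent.Helper84.FR.PTG
import Pool.Agent.Helper84.FR.PTT
import Pool.Agent.Helper84.FR.TRQ
import Pool.Agent.Helper87.FR.TRU
import Pool.Agent.Helper89.FR.MRG
import Pool.Agent.Helper89.FR.TRC
import Pool.Agent.Helper9.FR.PL
import Pool.Agent.Helper93.FR.PTS
import Pool.Agent.Helper94.FR.KER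
import Pool.Agent.Helper97.FR.THN

/-!
# Few rows in a box: all parts (boxes)
-/

namespace Pool.Agent.Helper92.FR

theorem trc' : TrcStmt := Pool.Agent.Helper89.FR.trc
theorem trv' : TrvStmt := Pool.Agent.Helper53.FR.trv Pool.Agent.Helper49.FR.tr0 Pool.Agent.Helper5.FR.trd
theorem trf' : TrfStmt := Pool.Agent.Helper5.FR.trf Pool.Agent.Helper49.FR.tr0
theorem lcp' : LcpStmt := Pool.Agent.Helper84.FR.lcp (Pool.Agent.Helper34.FR.lcf Pool.Agent.Helper9.FR.pl)
theorem sup' : SupStmt := Pool.Agent.Helper13.FR.sup Pool.Agent.Helper49.FR.tr0 Pool.Agent.Helper5.FR.trd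
theorem low' : LowStmt := Pool.Agent.Helper77.FR.low Pool.Agent.Helper52.FR.dep Pool.Agent.Helper1.FR.tail
theorem thn' : ThnStmt := Pool.Agent.Helper97.FR.thn Pool.Agent.Helper94.FR.ker
theorem ana' : AnaStmt := Pool.Agent.Helper50.FR.ana Pool.Agent.Helper1.FR.tail low'
  Pool.Agent.Helper77.FR.spp Pool.Agent.Helper1.FR.lip thn'
theorem gro' : GroStmt := Pool.Agent.Helper82.FR.gro Pool.Agent.Helper49.FR.tr0 trc'
  Pool.Agent.Helper2.FR.trg
theorem dec' : DecStmt := Pool.Agent.Helper8.FR.dec Pool.Agent.Helper87.FR.tru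
theorem bnd' : BndStmt := Pool.Agent.Helper44.FR.bnd Pool.Agent.Helper84.FR.trq
theorem val1' : Val1Stmt := Pool.Agent.Helper19.FR.val1 Pool.Agent.Helper24.FR.val0
  (Pool.Agent.Helper37.FR.mtl Pool.Agent.Helper84.FR.trq)
theorem val2' : Val2Stmt := Pool.Agent.Helper39.FR.val2 Pool.Agent.Helper24.FR.val0
theorem pas' : PasStmt := Pool.Agent.Helper30.FR.pas Pool.Agent.Helper24.FR.val0 val1'
  Pool.Agent.Helper67.FR.ldl Pool.Agent.Helper51.FR.hpd
theorem til' : TilStmt := Pool.Agent.Helper77.FR.til (Pool.Agent.Helper41.FR.cpa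
  Pool.Agent.Helper61.FR.cut) Pool.Agent.Helper60.FR.cpv val1' pas'
  (Pool.Agent.Helper61.FR.min gro') gro' dec'
theorem qtl' : QtlStmt := Pool.Agent.Helper1.FR.EXS.qtl Pool.Agent.Helper1.FR.EXS.exs
  Pool.Agent.Helper84.FR.trq
theorem evl' (hE : Ev1Stmt) : EvlStmt := Pool.Agent.Helper42.FR.evl Pool.Agent.Helper24.FR.val0 val1'
  val2' Pool.Agent.Helper1.FR.EXS.exs qtl' Pool.Agent.Helper1.FR.EXS.pil Pool.Agent.Helper84.FR.trq
  hE bnd'
theorem ev1' (hM : MomStmt) (hC : ChfStmt) : Ev1Stmt := Pool.Agent.Helper1.FR.ev1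
  Pool.Agent.Helper84.FR.trq Pool.Agent.Helper67.FR.dens lcp' hM sup' ana' hC
theorem ptt' : PttStmt := Pool.Agent.Helper84.FR.ptt Pool.Agent.Helper22.FR.pte
theorem pti' : PtiStmt := Pool.Agent.Helper40.FR.pti
  (Pool.Agent.Helper93.FR.pts Pool.Agent.Helper73.FR.ptc Pool.Agent.Helper84.FR.ptg)
  (Pool.Agent.Helper12.FR.ptp ptt' Pool.Agent.Helper84.FR.ptg) Pool.Agent.Helper73.FR.ptc
theorem ptv' : PtvStmt := Pool.Agent.Helper2.FR.ptv Pool.Agent.Helper38.FR.ptf ptt'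
  Pool.Agent.Helper84.FR.ptg

theorem mom' : MomStmt := Pool.Agent.Helper32.FR.mom Pool.Agent.Helper49.FR.tr0
  Pool.Agent.Helper87.FR.tru trv'
theorem chf' : ChfStmt := Pool.Agent.Helper38.FR.chf Pool.Agent.Helper49.FR.tr0 trf'
  Pool.Agent.Helper94.FR.ker

theorem fewRows (κ : ℕ) : FewRows κ :=
  ⟨main κ, (main_pt pti' ptv' Pool.Agent.Helper62.FR.ptn κ).computable, fun I q hq hk =>
    main_correct Pool.Agent.Helper13.FR.nin (Pool.Agent.Helper89.FR.mrg Pool.Agent.Helper7.FR.int)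
      Pool.Agent.Helper34.FR.trr Pool.Agent.Helper3.FR.par til' (evl' (ev1' mom' chf')) κ I q hq hk⟩

end Pool.Agent.Helper92.FR
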