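import Pool.Agent.Helper92.VP.Defs

/-!
# Few rows in a box: the statement for boxes
-/

namespace Pool.Agent.Helper92.FR

open Pool.Agent.Helper81.CC Pool.Agent.Bin Pool.Agent.Helper92.VP

/-- A deterministic polynomial-time machine computes, for each instance `I` and each `q ≥ 1` (in
unary) a rational number, which is the volume of the polytope up to a relative error of at most
`1 / q` if `(d (log₂ L + 2) q) ^ d ≤ (L + q) ^ κ`, where `d` is the number of the rows of `I` (the
inequalities besides the bounds of the variables) and `L` is the number of the bits of `I`. -/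
def FewRows (κ : ℕ) : Prop :=
  ∃ f : Inst × ℕ → RQ, PolyTimeComputable (encOf (Inst × ℕ)) (encOf RQ) f ∧
    ∀ (I : Inst) (q : ℕ), 1 ≤ q →
      (I.2.length * (Nat.log 2 (isize I) + 2) * q) ^ I.2.length ≤ (isize I + q) ^ κ →
      |(f (I, q)).val - vol (poly I)| ≤ vol (poly I) / q

end Pool.Agent.Helper92.FR
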