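import Pool.Agent.Helper92.FR.GoalsB
import Pool.Agent.Helper92.FR.GoalsC
import Pool.Agent.Helper92.FR.StmtB
import Pool.Agent.Helper92.VP.Fin

/-!
# Few rows in a box: the assembly
-/

namespace Pool.Agent.Helper92.FR

open MeasureTheory Pool.Agent.Helper81.CC Pool.Agent.Bin Pool.Agent.Helper92.VP

theorem four_pow_log (W : ℕ) (hW : W ≠ 0) : 4 ^ (Nat.log 2 W / 2) ≤ W := by
  have h1 : (4 : ℕ) ^ (Nat.log 2 W / 2) = 2 ^ (2 * (Nat.log 2 W / 2)) := by
    rw [pow_mul]; norm_num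
  rw [h1]
  refine (Nat.pow_le_pow_right (by norm_num) (Nat.mul_div_le _ _)).trans ?_
  exact Nat.pow_log_le_self 2 hW

theorem ff_nonneg {N d : ℕ} (C : Fin N → Fin d → ℝ) (S e : Fin d → ℝ) (hS : ∀ i, 1 ≤ S i) :
    0 ≤ ff C S e := by
  unfold ff
  exact div_nonneg ENNReal.toReal_nonneg
    (Finset.prod_nonneg fun i _ => zero_le_one.trans (hS i))

theorem main_correct (hnin : NinStmt) (hmrg : MrgStmt) (htrr : TrrStmt) (hpar : ParStmt)
    (htil : TilStmt) (hevl : EvlStmt) (κ : ℕ) (I : Inst) (q : ℕ) (hq : 1 ≤ q)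
    (hk : (I.2.length * (Nat.log 2 (isize I) + 2) * q) ^ I.2.length ≤ (isize I + q) ^ κ) :
    |(main κ (I, q)).val - vol (poly I)| ≤ vol (poly I) / q := by
  have hz : RQ.val (false, ⟨0⟩, ⟨1⟩) = 0 := by simp [RQ.val]
  have hv := vol_nonneg (poly I)
  have hq0 : (0 : ℝ) < q := by exact_mod_cast hq
  unfold main
  simp only
  by_cases ht : triv0 I = true
  · rw [if_pos ht, hz, (hnin I).1 ht]
    simp
  rw [if_neg ht]
  rw [Bool.not_eq_true] at ht
  obtain ⟨hwf, hN, hd0, hsz, hSR, hwd, h0, h1, hne, hC, he, Dn, hDn1, hDn2, hDC, hDe⟩ :=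
    (hnin I).2 ht
  by_cases hn : nrow (nin I) = 0
  · rw [if_pos hn, htrr, ← h0 hn, sub_self, abs_zero]
    positivity
  rw [if_neg hn]
  have hn1 : 1 ≤ nrow (nin I) := Nat.pos_of_ne_zero hn
  have hN1 : 1 ≤ (nin I).1.length := by
    obtain ⟨j, _⟩ := hne ⟨0, hn1⟩
    exact Nat.lt_of_le_of_lt (Nat.zero_le _) j.isLt
  have hS : ∀ i, 1 ≤ SR (nin I) i := by
    intro i
    rw [hSR i]
    have := Finset.sum_nonneg (fun j (_ : j ∈ Finset.univ) => abs_nonneg (CR (nin I) j i))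
    have := abs_nonneg (eR (nin I) i)
    linarith
  obtain ⟨hW, hm⟩ := hpar κ I.2.length (nrow (nin I)) ((nin I).1.length + nrow (nin I)) (isize I) q
    (pX I q) (capW κ I q) hn1 hd0 hsz hq hk rfl rfl
  obtain ⟨hm1, hm2⟩ := hmrg (nin I) (isize I) Dn hwf hn1 hN1 hsz hSR hne hC he hDn1 hDn2 hDC hDe
  have hR10 : 10 ≤ pR I := by
    unfold pR
    nlinarith [Nat.zero_le (isize I), sq_nonneg (isize I)]
  have hRL : (nin I).1.length + nrow (nin I) ≤ pR I := by
    refine hsz.trans ?_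
    unfold pR
    nlinarith [Nat.zero_le (isize I), sq_nonneg (isize I)]
  obtain ⟨ht1, ht2⟩ := htil (nin I) (pR I) (Nat.log 2 (capW κ I q) / 2) hwf hn1 hR10 hRL hS hm hm2
  have hff := ff_nonneg (CR (nin I)) (SR (nin I)) (eR (nin I)) hS
  have hvol := h1 hn1
  have hSp : 0 ≤ Qn.val (Qn.prod (nin I).2.1) := by
    rw [Qn.val_prod]
    refine List.prod_nonneg fun x hx => ?_
    obtain ⟨y, hy, rfl⟩ := List.mem_map.mp hx
    obtain ⟨i, hi, rfl⟩ := List.mem_iff_getElem.mp hy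
    have := hS ⟨i, hi⟩
    unfold SR lv at this
    rw [List.getD_eq_getElem _ _ hi] at this
    exact zero_le_one.trans this
  cases htl : tiltI I (Nat.log 2 (capW κ I q) / 2) with
  | none =>
    have hf0 : ff (CR (nin I)) (SR (nin I)) (eR (nin I)) = 0 := by
      by_contra hne0
      obtain ⟨lam, hlam⟩ := ht2 (hm1 (lt_of_le_of_ne hff (Ne.symm hne0)))
      unfold tiltI at htl
      rw [hlam] at htl
      exact absurd htl (by simp)
    rw [Option.map_none, Option.getD_none, hz, hvol, hf0]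
    simp
  | some lam =>
    rw [Option.map_some, Option.getD_some, htrr]
    unfold tiltI at htl
    obtain ⟨hl, hnor, hT1, hT2, hdet, hdet0, hpass⟩ := ht1 lam htl
    obtain ⟨hpos, happ⟩ := hevl (nin I) lam q (pX I q) (pP I q) (40 * pM I q * pP I q)
      (pP I q + 50 * ((nin I).1.length + nrow (nin I)) * pM I q) (capW κ I q)
      (Nat.log 2 (capW κ I q) / 2) hwf hn1 hl hq rfl rfl rfl rfl hW hS hnor hT1 hT2 hdet hdet0 hpass
    rw [Qn.val_mul, Qn.val_mul, hvol, ← mul_sub, abs_mul,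
      abs_of_nonneg (mul_nonneg hwd.le hSp)]
    have h3 : 0 ≤ Qn.val (Qn.prod (wids I)) * Qn.val (Qn.prod (nin I).2.1) :=
      mul_nonneg hwd.le hSp
    rw [mul_div_assoc]
    refine mul_le_mul_of_nonneg_left (happ.trans ?_) h3
    exact div_le_div_of_nonneg_left hpos.le hq0 (by linarith)

seal nin rws wids triv0 toRQ tilt vslice

set_option maxRecDepth 4000 in
theorem main_pt (hpti : PtiStmt) (hptv : PtvStmt) (hptn : PtnStmt) (κ : ℕ) :
    PolyTime (main κ) := by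
  obtain ⟨h1, h2, h3, h4⟩ := hptn
  have e1 : PolyTime (fun z : Inst × ℕ => nin z.1) := PolyTime.comp h1 (by fun_prop)
  have e2 : PolyTime (fun z : Inst × ℕ => triv0 z.1) := PolyTime.comp h2 (by fun_prop)
  have e3 : PolyTime (fun z : Inst × ℕ => wids z.1) := PolyTime.comp h3 (by fun_prop)
  have e4 : PolyTime (fun z : Inst × ℕ => isize z.1) := PolyTime.comp PT_isize (by fun_prop)
  have e5 : PolyTime (fun z : Inst × ℕ => nrow (nin z.1)) := by
    unfold nrow
    fun_prop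
  have e6 : PolyTime (fun z : Inst × ℕ => pX z.1 z.2) := by
    unfold pX
    have := Pool.Agent.Helper3.DT.pt_log
      (n := fun z : Inst × ℕ => (nin z.1).1.length + nrow (nin z.1)) (by fun_prop)
    fun_prop
  have e7 : PolyTime (fun z : Inst × ℕ => capW κ z.1 z.2) := by
    unfold capW
    fun_prop
  have e8 : PolyTime (fun z : Inst × ℕ => Nat.log 2 (capW κ z.1 z.2) / 2) := by
    have := Pool.Agent.Helper3.DT.pt_log e7
    fun_prop
  have e9 : PolyTime (fun z : Inst × ℕ => pM z.1 z.2) := by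
    unfold pM
    fun_prop
  have e10 : PolyTime (fun z : Inst × ℕ => pP z.1 z.2) := by
    unfold pP
    fun_prop
  have e11 : PolyTime (fun z : Inst × ℕ => pR z.1) := by
    unfold pR
    fun_prop
  have hW : ∀ z : Inst × ℕ, 4 ^ (Nat.log 2 (capW κ z.1 z.2) / 2) ≤ capW κ z.1 z.2 := fun z =>
    four_pow_log _ (by unfold capW; omega)
  have e12 : PolyTime (fun z : Inst × ℕ => tiltI z.1 (Nat.log 2 (capW κ z.1 z.2) / 2)) := by
    unfold tiltI
    exact hpti (Inst × ℕ) (fun z => nin z.1) _ _ _ _ _ (fun z => capW κ z.1 z.2) e1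
      (by fun_prop) (by fun_prop) (by fun_prop) (by fun_prop) e8 e7 hW
  have e13 : PolyTime (fun z : (Inst × ℕ) × List Qn => vsliceI z.1.1 z.1.2 (capW κ z.1.1 z.1.2)
      (Nat.log 2 (capW κ z.1.1 z.1.2) / 2) z.2) := by
    unfold vsliceI
    have f1 : PolyTime (fun z : (Inst × ℕ) × List Qn => nin z.1.1) :=
      PolyTime.comp (g := fun z : Inst × ℕ => nin z.1) e1 (by fun_prop)
    have f5 : PolyTime (fun z : (Inst × ℕ) × List Qn => nrow (nin z.1.1)) :=
      PolyTime.comp (g := fun z : Inst × ℕ => nrow (nin z.1)) e5 (by fun_prop)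
    have f6 : PolyTime (fun z : (Inst × ℕ) × List Qn => pX z.1.1 z.1.2) :=
      PolyTime.comp (g := fun z : Inst × ℕ => pX z.1 z.2) e6 (by fun_prop)
    have f7 : PolyTime (fun z : (Inst × ℕ) × List Qn => capW κ z.1.1 z.1.2) :=
      PolyTime.comp (g := fun z : Inst × ℕ => capW κ z.1 z.2) e7 (by fun_prop)
    have f8 : PolyTime (fun z : (Inst × ℕ) × List Qn => Nat.log 2 (capW κ z.1.1 z.1.2) / 2) :=
      PolyTime.comp (g := fun z : Inst × ℕ => Nat.log 2 (capW κ z.1 z.2) / 2) e8 (by fun_prop)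
    have f9 : PolyTime (fun z : (Inst × ℕ) × List Qn => pM z.1.1 z.1.2) :=
      PolyTime.comp (g := fun z : Inst × ℕ => pM z.1 z.2) e9 (by fun_prop)
    have f10 : PolyTime (fun z : (Inst × ℕ) × List Qn => pP z.1.1 z.1.2) :=
      PolyTime.comp (g := fun z : Inst × ℕ => pP z.1 z.2) e10 (by fun_prop)
    exact hptv ((Inst × ℕ) × List Qn) _ _ _ _ _ _ _ _ _ _ (fun z => capW κ z.1.1 z.1.2) f1
      (by fun_prop) f10 (by fun_prop) (by fun_prop) f7 f9 (by fun_prop) f8 (by fun_prop) f7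
      (fun z => hW z.1)
  unfold main
  have e14 : PolyTime (fun z : Inst × ℕ => (((tiltI z.1 (Nat.log 2 (capW κ z.1 z.2) / 2)).map
      fun lam => toRQ (Qn.mul (Qn.mul (Qn.prod (wids z.1)) (Qn.prod (nin z.1).2.1))
      (vsliceI z.1 z.2 (capW κ z.1 z.2) (Nat.log 2 (capW κ z.1 z.2) / 2) lam)))).getD
        ((false, ⟨0⟩, ⟨1⟩) : RQ)) := by
    refine PolyTime.option_getD (PolyTime.option_map (g := fun (z : Inst × ℕ) (lam : List Qn) =>
      toRQ (Qn.mul (Qn.mul (Qn.prod (wids z.1)) (Qn.prod (nin z.1).2.1))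
      (vsliceI z.1 z.2 (capW κ z.1 z.2) (Nat.log 2 (capW κ z.1 z.2) / 2) lam))) e12 ?_)
      (by fun_prop)
    refine PolyTime.comp (g := toRQ) h4 ?_
    have f1 : PolyTime (fun z : (Inst × ℕ) × List Qn => nin z.1.1) :=
      PolyTime.comp (g := fun z : Inst × ℕ => nin z.1) e1 (by fun_prop)
    have f3 : PolyTime (fun z : (Inst × ℕ) × List Qn => wids z.1.1) :=
      PolyTime.comp (g := fun z : Inst × ℕ => wids z.1) e3 (by fun_prop)
    fun_prop
  have e15 : PolyTime (fun z : Inst × ℕ => toRQ (Qn.prod (wids z.1))) :=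
    PolyTime.comp (g := toRQ) h4 (by fun_prop)
  fun_prop

end Pool.Agent.Helper92.FR
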