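import Pool.Agent.Helper92.FR.Stmt
import Pool.Agent.Helper92.FR.StmtB
import Pool.Agent.Helper92.FR.Alg

/-!
# Few dense rows: from a system of inequalities to a box with few rows (goals, part S)
-/

namespace Pool.Agent.Helper92.FR

open Pool.Agent.Helper81.CC Pool.Agent.Bin Pool.Agent.Helper92.VP

/-- The coefficient `j` of a row. -/
def rco (r : List RQ × RQ) (j : ℕ) : Qn := ofRQ (r.1.getD j (false, ⟨0⟩, ⟨1⟩))

/-- The indices of the nonzero coefficients of a row. -/
def nzl (n : ℕ) (r : List RQ × RQ) : List ℕ := (List.range n).filter fun j => qnz (rco r j)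

/-- The quotient `b / a j` of a row. -/
def ratio (r : List RQ × RQ) (j : ℕ) : Qn := Qn.mul (ofRQ r.2) (Qn.inv (rco r j))

/-- The largest element of a list. -/
def qmax (l : List Qn) : Qn := (l.find? fun x => l.all fun y => Qn.le y x).getD Qn.zero

/-- The smallest element of a list. -/
def qmin (l : List Qn) : Qn := (l.find? fun x => l.all fun y => Qn.le x y).getD Qn.zero

/-- The lower bound of the variable `j`. -/
def loS (S : Sys) (j : ℕ) : Qn :=
  qmax (Qn.neg (Qn.ofBN (BN.pow2 (4 * ssize S ^ 2))) :: ((S.2.filter fun r =>
    decide ((nzl S.1 r).length = 1) && (qnz (rco r j) && Qn.le Qn.zero (rco r j))).map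
      fun r => ratio r j))

/-- The upper bound of the variable `j`. -/
def upS (S : Sys) (j : ℕ) : Qn :=
  qmin (Qn.ofBN (BN.pow2 (4 * ssize S ^ 2)) :: ((S.2.filter fun r =>
    decide ((nzl S.1 r).length = 1) && (qnz (rco r j) && Qn.le (rco r j) Qn.zero)).map
      fun r => ratio r j))

/-- The same number with a longer code. -/
def padRQ (k : ℕ) (x : RQ) : RQ := (x.1, x.2.1 * BN.pow2 k, x.2.2 * BN.pow2 k)

/-- The box with the dense rows. -/
def mkI (S : Sys) : Inst :=
  ((List.range S.1).map fun j => (toRQ (loS S j), padRQ (ssize S) (toRQ (upS S j))),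
    S.2.filter fun r => decide (2 ≤ (nzl S.1 r).length))

/-- Is there a row `0 ≥ b` with `b > 0`? -/
def bad0 (S : Sys) : Bool :=
  S.2.any fun r => decide ((nzl S.1 r).length = 0) && !(Qn.le (ofRQ r.2) Qn.zero)

/-- BIG. A bounded polyhedron is contained in a box of moderate size. Proof. The polyhedron is
compact and convex; `x j` (or `- x j`) attains its maximum at an extreme point `v` (the set of the
maximisers is a compact exposed face, `IsCompact.extremePoints_nonempty`, and an extreme point of an
exposed face is an extreme point; compare `Pool/Agent/Helper7/FR/INT.lean`). The coefficient vectors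
of the rows which are tight at `v` span `ℝ^n` (otherwise `v ± ε u` is in the polyhedron), so
`A_I v = b_I` with an invertible `n × n` matrix of rows. Multiply each row by the product of its
nonzero denominators: all numbers become integers of absolute value at most `2^L`, `L = ssize S`, so
by Cramer's rule `|v j| ≤ |det (A_I with the column j replaced by b_I)| ≤ n! 2^(L n) ≤ 2^(2 L^2)`
(`n ≤ L`; the determinant of `A_I` is a nonzero integer). -/
def BigStmt : Prop := ∀ S : Sys, Bornology.IsBounded (sol S) → ∀ x ∈ sol S, ∀ j,
  |x j| ≤ 2 ^ (4 * ssize S ^ 2)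

/-- MKV. The box with the dense rows is the polyhedron. Proof (may assume BIG, TRR). The value of
`rco r j` is `coef r j`, `(nzl n r).length = nnz n r`; the rows with exactly one nonzero coefficient
are the bounds `x j ≥ b / a j` (`a j > 0`) and `x j ≤ b / a j` (`a j < 0`); `qmax` and `qmin` are the
maximum and minimum of the values; the rows without nonzero coefficients say `0 ≥ b`; `dim (mkI S)`
is `S.1` (`List.length_map`), so the two sets correspond under the cast of the index sets. -/
def MkvStmt : Prop := ∀ S : Sys, Bornology.IsBounded (sol S) →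
  (bad0 S = true → vol (sol S) = 0) ∧ (bad0 S = false → vol (poly (mkI S)) = vol (sol S)) ∧
  (mkI S).2.length = dense S

/-- MKL. The size of the new instance. Proof. `toRQ (ratio r j)` has at most
`2 (bits of b + bits of a j) + 6 ≤ 2 L + 6` bits, the large number at most `4 L^2 + 5`, `padRQ`
adds at most `2 L`, and at least `L` bits if there is a variable. (`L = ssize S`.) -/
def MklStmt : Prop := ∀ S : Sys, isize (mkI S) ≤ 50 * (ssize S + 1) ^ 3 ∧
  (1 ≤ S.1 → ssize S ≤ isize (mkI S))

/-- MKP. Polynomial time. Proof: compositions (see `Pool/Agent/Helper62/FR/PTN.lean` for `nin`,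
`toRQ`, `ofRQ`, and `Pool.Agent.Helper92.VP.PT_isize` for sizes). -/
def MkpStmt : Prop := PolyTime mkI ∧ PolyTime bad0

end Pool.Agent.Helper92.FR
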