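import Pool.Agent.Helper59.Bin

/-!
# Exact rational and complex rational arithmetic in polynomial time

`Qn`: rational numbers `(p - p') / (r + 1)`; `Cn`: complex numbers
`((a - a') + (b - b') i) / (r + 1)`, all natural numbers in binary.
-/

namespace Pool.Agent.Helper92.FR

open Pool.Agent.Helper81.CC Pool.Agent.Bin

/-- Rational numbers `(p - p') / (r + 1)`. -/
abbrev Qn := BN × BN × BN

/-- Complex rational numbers `((a - a') + (b - b') i) / (r + 1)`. -/
abbrev Cn := (BN × BN) × (BN × BN) × BN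

namespace Qn

/-- The value. -/
noncomputable def val (x : Qn) : ℝ := ((x.1.val : ℝ) - x.2.1.val) / ((x.2.2.val : ℝ) + 1)

/-- The complexity measure. -/
def mu (x : Qn) : ℕ := x.1.val + x.2.1.val + (x.2.2.val + 1)

/-- Zero. -/
def zero : Qn := (⟨0⟩, ⟨0⟩, ⟨0⟩)
/-- One. -/
def one : Qn := (⟨1⟩, ⟨0⟩, ⟨0⟩)
/-- From a binary number. -/
def ofBN (n : BN) : Qn := (n, ⟨0⟩, ⟨0⟩)
/-- Addition. -/
def add (x y : Qn) : Qn :=
  (x.1 * y.2.2 + x.1 + (y.1 * x.2.2 + y.1), x.2.1 * y.2.2 + x.2.1 + (y.2.1 * x.2.2 + y.2.1),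
    x.2.2 * y.2.2 + x.2.2 + y.2.2)
/-- Multiplication. -/
def mul (x y : Qn) : Qn :=
  (x.1 * y.1 + x.2.1 * y.2.1, x.1 * y.2.1 + x.2.1 * y.1, x.2.2 * y.2.2 + x.2.2 + y.2.2)
/-- Negation. -/
def neg (x : Qn) : Qn := (x.2.1, x.1, x.2.2)
/-- Subtraction. -/
def sub (x y : Qn) : Qn := add x (neg y)
/-- Inverse (`0` for `0`). -/
def inv (x : Qn) : Qn :=
  if x.2.1 < x.1 then (x.2.2 + ⟨1⟩, ⟨0⟩, x.1 - x.2.1 - ⟨1⟩)
  else if x.1 < x.2.1 then (⟨0⟩, x.2.2 + ⟨1⟩, x.2.1 - x.1 - ⟨1⟩) else zero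
/-- Absolute value. -/
def abs (x : Qn) : Qn := if x.2.1 ≤ x.1 then x else neg x
/-- Comparison. -/
def le (x y : Qn) : Bool :=
  decide (x.1 * y.2.2 + x.1 + (y.2.1 * x.2.2 + y.2.1) ≤
    y.1 * x.2.2 + y.1 + (x.2.1 * y.2.2 + x.2.1))
/-- The floor of a nonnegative number. -/
def fl (x : Qn) : BN := (x.1 - x.2.1) / (x.2.2 + ⟨1⟩)
/-- Sum of a list. -/
def sum (l : List Qn) : Qn := l.foldl add zero
/-- Product of a list. -/
def prod (l : List Qn) : Qn := l.foldl mul one

theorem den_pos (x : Qn) : (0 : ℝ) < (x.2.2.val : ℝ) + 1 := by positivity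

@[simp] theorem val_zero : val zero = 0 := by simp [val, zero]
@[simp] theorem val_one : val one = 1 := by simp [val, one]
@[simp] theorem val_ofBN (n : BN) : val (ofBN n) = n.val := by simp [val, ofBN]

@[simp] theorem val_add (x y : Qn) : val (add x y) = val x + val y := by
  have h1 := den_pos x
  have h2 := den_pos y
  simp only [val, add, BN.val_add, BN.val_mul]
  push_cast
  have h3 : (x.2.2.val : ℝ) * y.2.2.val + x.2.2.val + y.2.2.val + 1 =
    (x.2.2.val + 1) * (y.2.2.val + 1) := by ring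
  rw [h3]
  field_simp
  ring

@[simp] theorem val_mul (x y : Qn) : val (mul x y) = val x * val y := by
  have h1 := den_pos x
  have h2 := den_pos y
  simp only [val, mul, BN.val_add, BN.val_mul]
  push_cast
  have h3 : (x.2.2.val : ℝ) * y.2.2.val + x.2.2.val + y.2.2.val + 1 =
    (x.2.2.val + 1) * (y.2.2.val + 1) := by ring
  rw [h3]
  field_simp
  ring

@[simp] theorem val_neg (x : Qn) : val (neg x) = - val x := by
  simp only [val, neg]
  ring

@[simp] theorem val_sub (x y : Qn) : val (sub x y) = val x - val y := by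
  rw [sub, val_add, val_neg]
  ring

theorem val_pos_iff (x : Qn) : 0 < val x ↔ x.2.1.val < x.1.val := by
  unfold val
  rw [div_pos_iff_of_pos_right (den_pos x), sub_pos, Nat.cast_lt]

theorem val_neg_iff (x : Qn) : val x < 0 ↔ x.1.val < x.2.1.val := by
  unfold val
  rw [div_neg_iff]
  constructor
  · rintro (h | h)
    · exact absurd h.2 (not_lt.mpr (den_pos x).le)
    · exact_mod_cast sub_neg.mp h.1
  · intro h
    exact Or.inr ⟨sub_neg.mpr (by exact_mod_cast h), den_pos x⟩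

@[simp] theorem val_inv (x : Qn) : val (inv x) = (val x)⁻¹ := by
  unfold inv
  split_ifs with h1 h2
  · rw [BN.lt_def] at h1
    have h3 : x.1.val - x.2.1.val - 1 + 1 = x.1.val - x.2.1.val := by omega
    have h4 : ((x.1.val - x.2.1.val - 1 : ℕ) : ℝ) + 1 = (x.1.val : ℝ) - x.2.1.val := by
      rw [← Nat.cast_sub h1.le]
      exact_mod_cast h3
    simp only [val, BN.val_sub, BN.val_add]
    rw [h4, inv_div]
    push_cast
    ring
  · rw [BN.lt_def] at h2
    have h3 : x.2.1.val - x.1.val - 1 + 1 = x.2.1.val - x.1.val := by omega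
    have h4 : ((x.2.1.val - x.1.val - 1 : ℕ) : ℝ) + 1 = (x.2.1.val : ℝ) - x.1.val := by
      rw [← Nat.cast_sub h2.le]
      exact_mod_cast h3
    simp only [val, BN.val_sub, BN.val_add]
    rw [h4, inv_div]
    push_cast
    rw [zero_sub, ← neg_sub (x.2.1.val : ℝ) (x.1.val : ℝ), div_neg, neg_div]
  · rw [BN.lt_def] at h1 h2
    have h3 : x.1.val = x.2.1.val := by omega
    rw [val_zero]
    unfold val
    rw [h3, sub_self, zero_div, inv_zero]

@[simp] theorem val_abs (x : Qn) : val (abs x) = |val x| := by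
  unfold abs
  split_ifs with h
  · rw [BN.le_def] at h
    rw [abs_of_nonneg]
    unfold val
    exact div_nonneg (sub_nonneg.mpr (by exact_mod_cast h)) (den_pos x).le
  · rw [BN.le_def, not_le] at h
    rw [val_neg, abs_of_neg ((val_neg_iff x).mpr h)]

theorem le_iff (x y : Qn) : le x y = true ↔ val x ≤ val y := by
  have h1 := den_pos x
  have h2 := den_pos y
  simp only [le, val, decide_eq_true_eq, BN.le_def, BN.val_add, BN.val_mul]
  rw [div_le_div_iff₀ h1 h2, ← Nat.cast_le (α := ℝ)]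
  push_cast
  constructor <;> intro h <;> nlinarith

theorem fl_eq (x : Qn) : (fl x).val = ⌊val x⌋₊ := by
  by_cases h1 : x.2.1.val ≤ x.1.val
  · have h2 : val x = ((x.1.val - x.2.1.val : ℕ) : ℝ) / ((x.2.2.val + 1 : ℕ) : ℝ) := by
      unfold val
      rw [Nat.cast_sub h1]
      push_cast
      rfl
    rw [h2, Nat.floor_div_eq_div]
    rfl
  · have h2 : x.1.val - x.2.1.val = 0 := by omega
    rw [Nat.floor_of_nonpos ((val_neg_iff x).mpr (not_le.mp h1)).le]
    simp only [fl, BN.val_div, BN.val_sub, h2, Nat.zero_div]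

theorem foldl_add (l : List Qn) : ∀ s : Qn,
    val (l.foldl add s) = val s + (l.map val).sum := by
  induction l with
  | nil => intro s; simp
  | cons x l ih =>
    intro s
    rw [List.foldl_cons, ih, val_add, List.map_cons, List.sum_cons]
    ring

theorem foldl_mul (l : List Qn) : ∀ s : Qn,
    val (l.foldl mul s) = val s * (l.map val).prod := by
  induction l with
  | nil => intro s; simp
  | cons x l ih =>
    intro s
    rw [List.foldl_cons, ih, val_mul, List.map_cons, List.prod_cons]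
    ring

@[simp] theorem val_sum (l : List Qn) : val (sum l) = (l.map val).sum := by
  rw [sum, foldl_add, val_zero, zero_add]

@[simp] theorem val_prod (l : List Qn) : val (prod l) = (l.map val).prod := by
  rw [prod, foldl_mul, val_one, one_mul]

theorem mu_pos (x : Qn) : 0 < mu x := by unfold mu; omega
theorem mu_neg (x : Qn) : mu (neg x) = mu x := by unfold mu neg; simp only; omega
theorem mu_abs (x : Qn) : mu (abs x) = mu x := by
  unfold abs
  split_ifs
  · rfl
  · exact mu_neg x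
theorem mu_add (x y : Qn) : mu (add x y) ≤ mu x * mu y := by
  simp only [mu, add, BN.val_add, BN.val_mul]
  nlinarith [Nat.zero_le (x.1.val * y.1.val), Nat.zero_le (x.1.val * y.2.1.val),
    Nat.zero_le (x.2.1.val * y.1.val), Nat.zero_le (x.2.1.val * y.2.1.val)]
theorem mu_mul (x y : Qn) : mu (mul x y) ≤ mu x * mu y := by
  simp only [mu, mul, BN.val_add, BN.val_mul]
  nlinarith [Nat.zero_le (x.1.val * y.2.2.val), Nat.zero_le (x.2.1.val * y.2.2.val),
    Nat.zero_le (x.2.2.val * y.1.val), Nat.zero_le (x.2.2.val * y.2.1.val),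
    Nat.zero_le x.1.val, Nat.zero_le y.1.val, Nat.zero_le x.2.1.val, Nat.zero_le y.2.1.val]
theorem mu_sub (x y : Qn) : mu (sub x y) ≤ mu x * mu y := by
  unfold sub
  exact (mu_add x (neg y)).trans (by rw [mu_neg])
theorem mu_inv (x : Qn) : mu (inv x) ≤ mu x := by
  unfold inv
  split_ifs with h1 h2
  · rw [BN.lt_def] at h1
    simp only [mu, BN.val_add, BN.val_sub]
    omega
  · rw [BN.lt_def] at h2
    simp only [mu, BN.val_add, BN.val_sub]
    omega
  · simp only [mu, zero]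
    omega

theorem sz_le {x : Qn} {B : ℕ} (h : mu x ≤ 2 ^ B) : sz x ≤ 12 * B + 5 := by
  have h1 : x.1.val < 2 ^ B := by unfold mu at h; omega
  have h2 : x.2.1.val < 2 ^ B := by unfold mu at h; omega
  have h3 : x.2.2.val < 2 ^ B := by unfold mu at h; omega
  have g1 := sz_le_of_lt h1
  have g2 := sz_le_of_lt h2
  have g3 := sz_le_of_lt h3
  obtain ⟨a, b, c⟩ := x
  rw [sz_pair, sz_pair]
  simp only at g1 g2 g3
  omega

theorem mu_le (x : Qn) : mu x ≤ 2 ^ sz x := by
  obtain ⟨a, b, c⟩ := x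
  have h1 := val_lt_two_pow_sz a
  have h2 := val_lt_two_pow_sz b
  have h3 := val_lt_two_pow_sz c
  have e1 : 2 ^ sz a ≤ 2 ^ (sz a + sz b + sz c) := Nat.pow_le_pow_right (by norm_num) (by omega)
  have e2 : 2 ^ sz b ≤ 2 ^ (sz a + sz b + sz c) := Nat.pow_le_pow_right (by norm_num) (by omega)
  have e3 : 2 ^ sz c ≤ 2 ^ (sz a + sz b + sz c) := Nat.pow_le_pow_right (by norm_num) (by omega)
  have e4 : 2 ^ sz (a, b, c) = 2 ^ (sz a + sz b + sz c) * 4 := by
    rw [sz_pair, sz_pair, ← show (2 : ℕ) ^ 2 = 4 from rfl, ← pow_add]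
    congr 1
    omega
  rw [e4]
  unfold mu
  simp only
  omega

theorem mu_foldl (f : Qn → Qn → Qn) (hf : ∀ x y, mu (f x y) ≤ mu x * mu y) (l : List Qn) :
    ∀ s : Qn, mu (l.foldl f s) ≤ mu s * 2 ^ sz l := by
  induction l with
  | nil =>
    intro s
    rw [List.foldl_nil]
    exact Nat.le_mul_of_pos_right _ (by positivity)
  | cons x l ih =>
    intro s
    rw [List.foldl_cons]
    refine (ih _).trans ?_
    have h1 := hf s x
    have h2 := mu_le x
    have h3 : 2 ^ sz x * 2 ^ sz l ≤ 2 ^ sz (x :: l) := by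
      rw [← pow_add]
      exact Nat.pow_le_pow_right (by norm_num) (by rw [sz_cons]; omega)
    calc mu (f s x) * 2 ^ sz l ≤ mu s * mu x * 2 ^ sz l := Nat.mul_le_mul_right _ h1
      _ ≤ mu s * 2 ^ sz x * 2 ^ sz l := Nat.mul_le_mul_right _ (Nat.mul_le_mul_left _ h2)
      _ = mu s * (2 ^ sz x * 2 ^ sz l) := by ring
      _ ≤ mu s * 2 ^ sz (x :: l) := Nat.mul_le_mul_left _ h3

end Qn

variable {α : Type} [ToData α]

@[fun_prop] theorem PT_ofBN {f : α → BN} (hf : PolyTime f) : PolyTime (fun a => Qn.ofBN (f a)) := by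
  unfold Qn.ofBN; fun_prop
@[fun_prop] theorem PT_qadd {f g : α → Qn} (hf : PolyTime f) (hg : PolyTime g) :
    PolyTime (fun a => Qn.add (f a) (g a)) := by unfold Qn.add; fun_prop
@[fun_prop] theorem PT_qmul {f g : α → Qn} (hf : PolyTime f) (hg : PolyTime g) :
    PolyTime (fun a => Qn.mul (f a) (g a)) := by unfold Qn.mul; fun_prop
@[fun_prop] theorem PT_qneg {f : α → Qn} (hf : PolyTime f) :
    PolyTime (fun a => Qn.neg (f a)) := by unfold Qn.neg; fun_prop
@[fun_prop] theorem PT_qsub {f g : α → Qn} (hf : PolyTime f) (hg : PolyTime g) :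
    PolyTime (fun a => Qn.sub (f a) (g a)) := by unfold Qn.sub; fun_prop
@[fun_prop] theorem PT_qinv {f : α → Qn} (hf : PolyTime f) :
    PolyTime (fun a => Qn.inv (f a)) := by unfold Qn.inv Qn.zero; fun_prop
@[fun_prop] theorem PT_qabs {f : α → Qn} (hf : PolyTime f) :
    PolyTime (fun a => Qn.abs (f a)) := by unfold Qn.abs; fun_prop
@[fun_prop] theorem PT_qle {f g : α → Qn} (hf : PolyTime f) (hg : PolyTime g) :
    PolyTime (fun a => Qn.le (f a) (g a)) := by unfold Qn.le; fun_prop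
@[fun_prop] theorem PT_qfl {f : α → Qn} (hf : PolyTime f) :
    PolyTime (fun a => Qn.fl (f a)) := by unfold Qn.fl; fun_prop

theorem PT_qfold (op : Qn → Qn → Qn) (s0 : Qn) (hop : PolyTime (fun p : Qn × Qn => op p.1 p.2))
    (hmu : ∀ x y, Qn.mu (op x y) ≤ Qn.mu x * Qn.mu y) {f : α → List Qn} (hf : PolyTime f) :
    PolyTime (fun a => (f a).foldl op s0) := by
  refine PolyTime.foldl_bd (l := f) (s0 := fun _ => s0) (step := fun _ s x => op s x) hf
    (by fun_prop) ?_ (B := fun a => 12 * (sz (f a) + Qn.mu s0) + 5)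
    (((PBd.const 12).mul (hf.bd.add (PBd.const _))).add (PBd.const 5)) ?_
  · exact PolyTime.comp (f := fun z : α × Qn × Qn => (z.2.1, z.2.2)) hop (by fun_prop)
  · intro a l' hl'
    apply Qn.sz_le
    refine (Qn.mu_foldl op hmu l' s0).trans ?_
    have h1 : Qn.mu s0 ≤ 2 ^ Qn.mu s0 := Nat.lt_two_pow_self.le
    have h2 : 2 ^ sz l' ≤ 2 ^ sz (f a) := Nat.pow_le_pow_right (by norm_num) (sz_prefix_le hl')
    calc Qn.mu s0 * 2 ^ sz l' ≤ 2 ^ Qn.mu s0 * 2 ^ sz (f a) := Nat.mul_le_mul h1 h2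
      _ = 2 ^ (sz (f a) + Qn.mu s0) := by rw [← pow_add, add_comm]

@[fun_prop] theorem PT_qsum {f : α → List Qn} (hf : PolyTime f) :
    PolyTime (fun a => Qn.sum (f a)) := by
  unfold Qn.sum
  exact PT_qfold Qn.add Qn.zero (by fun_prop) Qn.mu_add hf

@[fun_prop] theorem PT_qprod {f : α → List Qn} (hf : PolyTime f) :
    PolyTime (fun a => Qn.prod (f a)) := by
  unfold Qn.prod
  exact PT_qfold Qn.mul Qn.one (by fun_prop) Qn.mu_mul hf

end Pool.Agent.Helper92.FR
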