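import Pool.Agent.Helper92.FR.Num

/-!
# Complex rational numbers
-/

namespace Pool.Agent.Helper92.FR

open Pool.Agent.Helper81.CC Pool.Agent.Bin

namespace Cn

/-- The value. -/
noncomputable def val (x : Cn) : ℂ :=
  (((x.1.1.val : ℂ) - x.1.2.val) + ((x.2.1.1.val : ℂ) - x.2.1.2.val) * Complex.I) /
    ((x.2.2.val : ℂ) + 1)

/-- The complexity measure. -/
def mu (x : Cn) : ℕ := x.1.1.val + x.1.2.val + (x.2.1.1.val + x.2.1.2.val) + (x.2.2.val + 1)

/-- Zero. -/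
def zero : Cn := ((⟨0⟩, ⟨0⟩), (⟨0⟩, ⟨0⟩), ⟨0⟩)
/-- One. -/
def one : Cn := ((⟨1⟩, ⟨0⟩), (⟨0⟩, ⟨0⟩), ⟨0⟩)
/-- From a rational number. -/
def ofQ (x : Qn) : Cn := ((x.1, x.2.1), (⟨0⟩, ⟨0⟩), x.2.2)
/-- Multiplication by `i`. -/
def mulI (x : Cn) : Cn := ((x.2.1.2, x.2.1.1), x.1, x.2.2)
/-- Negation. -/
def neg (x : Cn) : Cn := ((x.1.2, x.1.1), (x.2.1.2, x.2.1.1), x.2.2)
/-- Conjugation. -/
def conj (x : Cn) : Cn := (x.1, (x.2.1.2, x.2.1.1), x.2.2)
/-- Addition. -/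
def add (x y : Cn) : Cn :=
  ((x.1.1 * y.2.2 + x.1.1 + (y.1.1 * x.2.2 + y.1.1),
    x.1.2 * y.2.2 + x.1.2 + (y.1.2 * x.2.2 + y.1.2)),
   (x.2.1.1 * y.2.2 + x.2.1.1 + (y.2.1.1 * x.2.2 + y.2.1.1),
    x.2.1.2 * y.2.2 + x.2.1.2 + (y.2.1.2 * x.2.2 + y.2.1.2)),
   x.2.2 * y.2.2 + x.2.2 + y.2.2)
/-- Multiplication. -/
def mul (x y : Cn) : Cn :=
  ((x.1.1 * y.1.1 + x.1.2 * y.1.2 + (x.2.1.1 * y.2.1.2 + x.2.1.2 * y.2.1.1),
    x.1.1 * y.1.2 + x.1.2 * y.1.1 + (x.2.1.1 * y.2.1.1 + x.2.1.2 * y.2.1.2)),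
   (x.1.1 * y.2.1.1 + x.1.2 * y.2.1.2 + (x.2.1.1 * y.1.1 + x.2.1.2 * y.1.2),
    x.1.1 * y.2.1.2 + x.1.2 * y.2.1.1 + (x.2.1.1 * y.1.2 + x.2.1.2 * y.1.1)),
   x.2.2 * y.2.2 + x.2.2 + y.2.2)
/-- The real part. -/
def re (x : Cn) : Qn := (x.1.1, x.1.2, x.2.2)
/-- The imaginary part. -/
def im (x : Cn) : Qn := (x.2.1.1, x.2.1.2, x.2.2)
/-- `x + i y`. -/
def mk (x y : Qn) : Cn := add (ofQ x) (mulI (ofQ y))
/-- Inverse. -/
def inv (x : Cn) : Cn :=
  mul (conj x) (ofQ (Qn.inv (Qn.add (Qn.mul (re x) (re x)) (Qn.mul (im x) (im x)))))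
/-- Sum of a list. -/
def sum (l : List Cn) : Cn := l.foldl add zero
/-- Product of a list. -/
def prod (l : List Cn) : Cn := l.foldl mul one

theorem den_ne (x : Cn) : ((x.2.2.val : ℂ) + 1) ≠ 0 := Nat.cast_add_one_ne_zero x.2.2.val

@[simp] theorem val_zero : val zero = 0 := by simp [val, zero]
@[simp] theorem val_one : val one = 1 := by simp [val, one]
@[simp] theorem val_ofQ (x : Qn) : val (ofQ x) = (Qn.val x : ℂ) := by
  simp [val, ofQ, Qn.val]
@[simp] theorem val_mulI (x : Cn) : val (mulI x) = Complex.I * val x := by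
  have hI : Complex.I * Complex.I = -1 := Complex.I_mul_I
  simp only [val, mulI]
  rw [← mul_div_assoc]
  congr 1
  linear_combination ((x.2.1.2.val : ℂ) - x.2.1.1.val) * hI
@[simp] theorem val_neg (x : Cn) : val (neg x) = - val x := by
  simp only [val, neg]
  ring
@[simp] theorem val_conj (x : Cn) : val (conj x) = (starRingEnd ℂ) (val x) := by
  simp only [val, conj, map_div₀, map_add, map_sub, map_mul, Complex.conj_I, map_natCast, map_one]
  ring
@[simp] theorem val_add (x y : Cn) : val (add x y) = val x + val y := by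
  have h1 := den_ne x
  have h2 := den_ne y
  simp only [val, add, BN.val_add, BN.val_mul]
  push_cast
  have h3 : (x.2.2.val : ℂ) * y.2.2.val + x.2.2.val + y.2.2.val + 1 =
    (x.2.2.val + 1) * (y.2.2.val + 1) := by ring
  rw [h3]
  field_simp
  ring
@[simp] theorem val_mul (x y : Cn) : val (mul x y) = val x * val y := by
  have hI : Complex.I * Complex.I = -1 := Complex.I_mul_I
  simp only [val, mul, BN.val_add, BN.val_mul]
  push_cast
  have h3 : (x.2.2.val : ℂ) * y.2.2.val + x.2.2.val + y.2.2.val + 1 =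
    (x.2.2.val + 1) * (y.2.2.val + 1) := by ring
  rw [h3, div_mul_div_comm]
  congr 1
  linear_combination (-((x.2.1.1.val : ℂ) - x.2.1.2.val) * ((y.2.1.1.val : ℂ) - y.2.1.2.val)) * hI
@[simp] theorem val_re (x : Cn) : Qn.val (re x) = (val x).re := by
  have h : val x = (Qn.val (re x) : ℂ) + (Qn.val (im x) : ℂ) * Complex.I := by
    simp only [val, re, im, Qn.val]
    push_cast
    ring
  rw [h]
  simp
@[simp] theorem val_im (x : Cn) : Qn.val (im x) = (val x).im := by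
  have h : val x = (Qn.val (re x) : ℂ) + (Qn.val (im x) : ℂ) * Complex.I := by
    simp only [val, re, im, Qn.val]
    push_cast
    ring
  rw [h]
  simp
@[simp] theorem val_mk (x y : Qn) : val (mk x y) = (Qn.val x : ℂ) + Complex.I * (Qn.val y : ℂ) := by
  rw [mk, val_add, val_mulI, val_ofQ, val_ofQ]
@[simp] theorem val_inv (x : Cn) : val (inv x) = (val x)⁻¹ := by
  rw [inv, val_mul, val_conj, val_ofQ, Qn.val_inv, Qn.val_add, Qn.val_mul, Qn.val_mul, val_re,
    val_im, Complex.inv_def, Complex.normSq_apply]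

theorem foldl_add (l : List Cn) : ∀ s : Cn,
    val (l.foldl add s) = val s + (l.map val).sum := by
  induction l with
  | nil => intro s; simp
  | cons x l ih =>
    intro s
    rw [List.foldl_cons, ih, val_add, List.map_cons, List.sum_cons]
    ring

theorem foldl_mul (l : List Cn) : ∀ s : Cn,
    val (l.foldl mul s) = val s * (l.map val).prod := by
  induction l with
  | nil => intro s; simp
  | cons x l ih =>
    intro s
    rw [List.foldl_cons, ih, val_mul, List.map_cons, List.prod_cons]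
    ring

@[simp] theorem val_sum (l : List Cn) : val (sum l) = (l.map val).sum := by
  rw [sum, foldl_add, val_zero, zero_add]

@[simp] theorem val_prod (l : List Cn) : val (prod l) = (l.map val).prod := by
  rw [prod, foldl_mul, val_one, one_mul]

theorem mu_add (x y : Cn) : mu (add x y) ≤ mu x * mu y := by
  obtain ⟨⟨⟨a⟩, ⟨a'⟩⟩, ⟨⟨b⟩, ⟨b'⟩⟩, ⟨r⟩⟩ := x
  obtain ⟨⟨⟨c⟩, ⟨c'⟩⟩, ⟨⟨d⟩, ⟨d'⟩⟩, ⟨s⟩⟩ := y
  simp only [mu, add, BN.val_add, BN.val_mul]
  have h : (a + a' + (b + b') + (r + 1)) * (c + c' + (d + d') + (s + 1)) =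
      (a + a' + (b + b')) * (c + c' + (d + d')) +
      ((a + a' + (b + b')) * (s + 1) + (c + c' + (d + d')) * (r + 1) + (r + 1) * (s + 1)) := by ring
  rw [h]
  have h2 : a * s + a + (c * r + c) + (a' * s + a' + (c' * r + c')) +
      (b * s + b + (d * r + d) + (b' * s + b' + (d' * r + d'))) + (r * s + r + s + 1) =
      (a + a' + (b + b')) * (s + 1) + (c + c' + (d + d')) * (r + 1) + (r + 1) * (s + 1) := by ring
  rw [h2]
  exact Nat.le_add_left _ _
theorem mu_mul (x y : Cn) : mu (mul x y) ≤ mu x * mu y := by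
  obtain ⟨⟨⟨a⟩, ⟨a'⟩⟩, ⟨⟨b⟩, ⟨b'⟩⟩, ⟨r⟩⟩ := x
  obtain ⟨⟨⟨c⟩, ⟨c'⟩⟩, ⟨⟨d⟩, ⟨d'⟩⟩, ⟨s⟩⟩ := y
  simp only [mu, mul, BN.val_add, BN.val_mul]
  have h : (a + a' + (b + b') + (r + 1)) * (c + c' + (d + d') + (s + 1)) =
      ((a + a' + (b + b')) * (s + 1) + (c + c' + (d + d')) * (r + 1)) +
      ((a + a' + (b + b')) * (c + c' + (d + d')) + (r + 1) * (s + 1)) := by ring
  rw [h]
  have h2 : a * c + a' * c' + (b * d' + b' * d) + (a * c' + a' * c + (b * d + b' * d')) +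
      (a * d + a' * d' + (b * c + b' * c') + (a * d' + a' * d + (b * c' + b' * c))) +
      (r * s + r + s + 1) =
      (a + a' + (b + b')) * (c + c' + (d + d')) + (r + 1) * (s + 1) := by ring
  rw [h2]
  exact Nat.le_add_left _ _

theorem sz_le {x : Cn} {B : ℕ} (h : mu x ≤ 2 ^ B) : sz x ≤ 20 * B + 9 := by
  obtain ⟨⟨a, a'⟩, ⟨b, b'⟩, r⟩ := x
  have h1 : a.val < 2 ^ B := by unfold mu at h; simp only at h; omega
  have h2 : a'.val < 2 ^ B := by unfold mu at h; simp only at h; omega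
  have h3 : b.val < 2 ^ B := by unfold mu at h; simp only at h; omega
  have h4 : b'.val < 2 ^ B := by unfold mu at h; simp only at h; omega
  have h5 : r.val < 2 ^ B := by unfold mu at h; simp only at h; omega
  have g1 := sz_le_of_lt h1
  have g2 := sz_le_of_lt h2
  have g3 := sz_le_of_lt h3
  have g4 := sz_le_of_lt h4
  have g5 := sz_le_of_lt h5
  rw [sz_pair, sz_pair, sz_pair, sz_pair]
  omega

theorem mu_le (x : Cn) : mu x ≤ 2 ^ sz x := by
  obtain ⟨⟨a, a'⟩, ⟨b, b'⟩, r⟩ := x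
  have h1 := val_lt_two_pow_sz a
  have h2 := val_lt_two_pow_sz a'
  have h3 := val_lt_two_pow_sz b
  have h4 := val_lt_two_pow_sz b'
  have h5 := val_lt_two_pow_sz r
  set T := sz a + sz a' + (sz b + sz b') + sz r with hT
  have e1 : 2 ^ sz a ≤ 2 ^ T := Nat.pow_le_pow_right (by norm_num) (by omega)
  have e2 : 2 ^ sz a' ≤ 2 ^ T := Nat.pow_le_pow_right (by norm_num) (by omega)
  have e3 : 2 ^ sz b ≤ 2 ^ T := Nat.pow_le_pow_right (by norm_num) (by omega)
  have e4 : 2 ^ sz b' ≤ 2 ^ T := Nat.pow_le_pow_right (by norm_num) (by omega)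
  have e5 : 2 ^ sz r ≤ 2 ^ T := Nat.pow_le_pow_right (by norm_num) (by omega)
  have e6 : 2 ^ sz (((a, a'), (b, b'), r) : Cn) = 2 ^ T * 16 := by
    rw [sz_pair, sz_pair, sz_pair, sz_pair, ← show (2 : ℕ) ^ 4 = 16 from rfl, ← pow_add]
    congr 1
    omega
  rw [e6]
  unfold mu
  simp only
  omega

theorem mu_foldl (f : Cn → Cn → Cn) (hf : ∀ x y, mu (f x y) ≤ mu x * mu y) (l : List Cn) :
    ∀ s : Cn, mu (l.foldl f s) ≤ mu s * 2 ^ sz l := by
  induction l with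
  | nil =>
    intro s
    rw [List.foldl_nil]
    exact Nat.le_mul_of_pos_right _ (by positivity)
  | cons x l ih =>
    intro s
    rw [List.foldl_cons]
    refine (ih _).trans ?_
    have h1 := hf s x
    have h2 := mu_le x
    have h3 : 2 ^ sz x * 2 ^ sz l ≤ 2 ^ sz (x :: l) := by
      rw [← pow_add]
      exact Nat.pow_le_pow_right (by norm_num) (by rw [sz_cons]; omega)
    calc mu (f s x) * 2 ^ sz l ≤ mu s * mu x * 2 ^ sz l := Nat.mul_le_mul_right _ h1
      _ ≤ mu s * 2 ^ sz x * 2 ^ sz l := Nat.mul_le_mul_right _ (Nat.mul_le_mul_left _ h2)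
      _ = mu s * (2 ^ sz x * 2 ^ sz l) := by ring
      _ ≤ mu s * 2 ^ sz (x :: l) := Nat.mul_le_mul_left _ h3

end Cn

variable {α : Type} [ToData α]

@[fun_prop] theorem PT_cofQ {f : α → Qn} (hf : PolyTime f) : PolyTime (fun a => Cn.ofQ (f a)) := by
  unfold Cn.ofQ; fun_prop
@[fun_prop] theorem PT_cmulI {f : α → Cn} (hf : PolyTime f) :
    PolyTime (fun a => Cn.mulI (f a)) := by unfold Cn.mulI; fun_prop
@[fun_prop] theorem PT_cneg {f : α → Cn} (hf : PolyTime f) :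
    PolyTime (fun a => Cn.neg (f a)) := by unfold Cn.neg; fun_prop
@[fun_prop] theorem PT_cconj {f : α → Cn} (hf : PolyTime f) :
    PolyTime (fun a => Cn.conj (f a)) := by unfold Cn.conj; fun_prop
@[fun_prop] theorem PT_cadd {f g : α → Cn} (hf : PolyTime f) (hg : PolyTime g) :
    PolyTime (fun a => Cn.add (f a) (g a)) := by unfold Cn.add; fun_prop
@[fun_prop] theorem PT_cmul {f g : α → Cn} (hf : PolyTime f) (hg : PolyTime g) :
    PolyTime (fun a => Cn.mul (f a) (g a)) := by unfold Cn.mul; fun_prop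
@[fun_prop] theorem PT_cre {f : α → Cn} (hf : PolyTime f) :
    PolyTime (fun a => Cn.re (f a)) := by unfold Cn.re; fun_prop
@[fun_prop] theorem PT_cim {f : α → Cn} (hf : PolyTime f) :
    PolyTime (fun a => Cn.im (f a)) := by unfold Cn.im; fun_prop
@[fun_prop] theorem PT_cmk {f g : α → Qn} (hf : PolyTime f) (hg : PolyTime g) :
    PolyTime (fun a => Cn.mk (f a) (g a)) := by unfold Cn.mk; fun_prop
@[fun_prop] theorem PT_cinv {f : α → Cn} (hf : PolyTime f) :
    PolyTime (fun a => Cn.inv (f a)) := by unfold Cn.inv; fun_prop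

theorem PT_cfold (op : Cn → Cn → Cn) (s0 : Cn) (hop : PolyTime (fun p : Cn × Cn => op p.1 p.2))
    (hmu : ∀ x y, Cn.mu (op x y) ≤ Cn.mu x * Cn.mu y) {f : α → List Cn} (hf : PolyTime f) :
    PolyTime (fun a => (f a).foldl op s0) := by
  refine PolyTime.foldl_bd (l := f) (s0 := fun _ => s0) (step := fun _ s x => op s x) hf
    (by fun_prop) ?_ (B := fun a => 20 * (sz (f a) + Cn.mu s0) + 9)
    (((PBd.const 20).mul (hf.bd.add (PBd.const _))).add (PBd.const 9)) ?_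
  · exact PolyTime.comp (f := fun z : α × Cn × Cn => (z.2.1, z.2.2)) hop (by fun_prop)
  · intro a l' hl'
    apply Cn.sz_le
    refine (Cn.mu_foldl op hmu l' s0).trans ?_
    have h1 : Cn.mu s0 ≤ 2 ^ Cn.mu s0 := Nat.lt_two_pow_self.le
    have h2 : 2 ^ sz l' ≤ 2 ^ sz (f a) := Nat.pow_le_pow_right (by norm_num) (sz_prefix_le hl')
    calc Cn.mu s0 * 2 ^ sz l' ≤ 2 ^ Cn.mu s0 * 2 ^ sz (f a) := Nat.mul_le_mul h1 h2
      _ = 2 ^ (sz (f a) + Cn.mu s0) := by rw [← pow_add, add_comm]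

@[fun_prop] theorem PT_csum {f : α → List Cn} (hf : PolyTime f) :
    PolyTime (fun a => Cn.sum (f a)) := by
  unfold Cn.sum
  exact PT_cfold Cn.add Cn.zero (by fun_prop) Cn.mu_add hf

@[fun_prop] theorem PT_cprod {f : α → List Cn} (hf : PolyTime f) :
    PolyTime (fun a => Cn.prod (f a)) := by
  unfold Cn.prod
  exact PT_cfold Cn.mul Cn.one (by fun_prop) Cn.mu_mul hf

end Pool.Agent.Helper92.FR
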