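import Mathlib

/-!
# Few rows in a box: the real-valued side (definitions)

`MM a = ∫_0^1 e^{ax} dx`, `mm a` the mean and `tl a` the law with density `e^{ax} / MM a` on `[0,1]`.
-/

namespace Pool.Agent.Helper92.FR

open MeasureTheory

noncomputable section

/-- `∫_0^1 e^{ax} dx`. -/
def MM (a : ℝ) : ℝ := ∫ x in (0 : ℝ)..1, Real.exp (a * x)

/-- The mean of the law with density `e^{ax} / MM a` on `[0,1]`. -/
def mm (a : ℝ) : ℝ := (∫ x in (0 : ℝ)..1, x * Real.exp (a * x)) / MM a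

/-- The logarithm of `MM`. -/
def GG (a : ℝ) : ℝ := Real.log (MM a)

/-- The complex version of `∫_0^1 e^{-ζ x} dx`. -/
def QQ (ζ : ℂ) : ℂ := ∫ x in (0 : ℝ)..1, Complex.exp (-ζ * x)

/-- The law with density `e^{ax} / MM a` on `[0,1]`. -/
def tl (a : ℝ) : Measure ℝ :=
  (volume.restrict (Set.Icc (0 : ℝ) 1)).withDensity fun x => ENNReal.ofReal (Real.exp (a * x) / MM a)

variable {N d : ℕ}

/-- The columns: `C j` for the variables, `- S i` times the unit vector for the slacks. -/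
def col (C : Fin N → Fin d → ℝ) (S : Fin d → ℝ) : Fin N ⊕ Fin d → Fin d → ℝ
  | .inl j => C j
  | .inr i => fun i' => if i' = i then - S i else 0

/-- The tilt parameter of the variable `j`. -/
def aa (C : Fin N → Fin d → ℝ) (S lam : Fin d → ℝ) (j : Fin N ⊕ Fin d) : ℝ :=
  ∑ i, lam i * col C S j i

/-- The product law. -/
def pr (C : Fin N → Fin d → ℝ) (S lam : Fin d → ℝ) : Measure (Fin N ⊕ Fin d → ℝ) :=
  Measure.pi fun j => tl (aa C S lam j)

/-- The normalised affine map. -/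
def YY (C : Fin N → Fin d → ℝ) (S e : Fin d → ℝ) (T : Matrix (Fin d) (Fin d) ℝ)
    (z : Fin N ⊕ Fin d → ℝ) : Fin d → ℝ :=
  fun i => ∑ i', T i i' * ((∑ j, col C S j i' * z j) - e i')

/-- The volume of the slice, divided by the product of the `S i`. -/
def ff (C : Fin N → Fin d → ℝ) (S w : Fin d → ℝ) : ℝ :=
  (volume {x : Fin N → ℝ | (∀ j, 0 ≤ x j ∧ x j ≤ 1) ∧
    ∀ i, 0 ≤ (∑ j, C j i * x j) - w i ∧ (∑ j, C j i * x j) - w i ≤ S i}).toReal / ∏ i, S i

/-- The density of the image of the product law. -/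
def pp (C : Fin N → Fin d → ℝ) (S e lam : Fin d → ℝ) (T : Matrix (Fin d) (Fin d) ℝ)
    (y : Fin d → ℝ) : ℝ :=
  Real.exp (∑ i, lam i * (e i + T⁻¹.mulVec y i)) * ff C S (fun i => e i + T⁻¹.mulVec y i) /
    ((∏ j, MM (aa C S lam j)) * |T.det|)

/-- The gradient of `F`. -/
def gg (C : Fin N → Fin d → ℝ) (S e lam : Fin d → ℝ) (i : Fin d) : ℝ :=
  (∑ j, mm (aa C S lam j) * col C S j i) - e i

/-- The function to be minimised. -/
def FF (C : Fin N → Fin d → ℝ) (S e lam : Fin d → ℝ) : ℝ :=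
  (∑ j, GG (aa C S lam j)) - ∑ i, lam i * e i

/-- The surrogate Hessian. -/
def HH (C : Fin N → Fin d → ℝ) (S lam : Fin d → ℝ) : Matrix (Fin d) (Fin d) ℝ :=
  fun i i' => ∑ j, (1 / (1 + |aa C S lam j|)) ^ 2 * (col C S j i * col C S j i')

/-- `T` normalises the surrogate Hessian. -/
def Nor (C : Fin N → Fin d → ℝ) (S lam : Fin d → ℝ) (T : Matrix (Fin d) (Fin d) ℝ) : Prop :=
  ∃ h : Fin d → ℝ, (∀ i, 1 / 2 ≤ h i ∧ h i ≤ 4) ∧ T * HH C S lam * T.transpose = Matrix.diagonal h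

/-- Log-concavity. -/
def LC (p : (Fin d → ℝ) → ℝ) : Prop :=
  ∀ (x y : Fin d → ℝ) (t : ℝ), 0 < t → t < 1 →
    p x ^ (1 - t) * p y ^ t ≤ p (fun i => (1 - t) * x i + t * y i)

/-- The one-dimensional kernel. -/
def kap (h : ℝ) (M : ℕ) : ℝ := h / (2 * Real.pi) * (4 ^ M / (Nat.centralBinom M : ℝ))

/-- The kernel `∏ κ cos(h y_i / 2)^(2M)`. -/
def TH (h : ℝ) (M : ℕ) (y : Fin d → ℝ) : ℝ := ∏ i, kap h M * Real.cos (h * y i / 2) ^ (2 * M)

/-- The weight of the frequency `k`, `|k| ≤ M`. -/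
def wt (M : ℕ) (k : ℤ) : ℝ := ∏ i ∈ Finset.range k.natAbs, ((M : ℝ) - i) / ((M : ℝ) + i + 1)

/-- The frequencies. -/
def grid (M : ℕ) : Finset (Fin d → ℤ) := Fintype.piFinset fun _ => Finset.Icc (-(M : ℤ)) M

end

end Pool.Agent.Helper92.FR
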